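import Mathlib

namespace Pool.Agent.D0H46.DC

open Finset

section
variable {A : Type*} [CommRing A] (q : Aˣ)

/-- integer power of the unit `q` -/
def X (e : ℤ) : A := ((q^e : Aˣ) : A)

/-- inverse of `1 - q^e` -/
noncomputable def iv (e : ℤ) : A := Ring.inverse (1 - X q e)

noncomputable def hh (e : ℤ) : A := X q e * iv q e ^ 2

noncomputable def tt (e : ℤ) : A := X q e * (1 + X q e) * iv q e ^ 3

noncomputable def Nm (d n : ℕ) (c : ℤ) (k : ℕ) : A := ∏ i ∈ range k, (1 - X q (-1 + d * i + n * c))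

noncomputable def Dn (d n : ℕ) (c : ℤ) (k : ℕ) : A := ∏ i ∈ range k, iv q (d * (i + 1) + n * c)

noncomputable def Ak (d k : ℕ) : A := ∏ i ∈ range k, ((1 - X q (-1 + d * i)) * iv q (d * (i + 1)))

noncomputable def wk (m d k : ℕ) : A := X q (m * d * k) * (X q (2 * d * k - 1) - 1)

noncomputable def Hs (f : ℤ → A) (d k : ℕ) : A := ∑ i ∈ range k, f (-1 + d * i)

noncomputable def Js (f : ℤ → A) (d k : ℕ) : A := ∑ i ∈ range k, f (d * (i + 1))

theorem X_add (a b : ℤ) : X q (a + b) = X q a * X q b := by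
  unfold X; rw [zpow_add, Units.val_mul]

@[simp] theorem X_zero : X q 0 = 1 := by unfold X; simp

theorem X_neg_mul (a : ℤ) : X q (-a) * X q a = 1 := by
  rw [← X_add]; simp

theorem X_sub (a b : ℤ) : X q (a - b) = X q a * X q (-b) := by
  rw [sub_eq_add_neg, X_add]

theorem X_natmul (a : ℤ) (k : ℕ) : X q (a * k) = X q a ^ k := by
  unfold X
  rw [zpow_mul, zpow_natCast, Units.val_pow_eq_pow_val]

theorem iv_mul {e : ℤ} (h : IsUnit (1 - X q e)) : (1 - X q e) * iv q e = 1 :=
  Ring.mul_inverse_cancel _ h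

theorem one_sub_neg (e : ℤ) : 1 - X q (-e) = - X q (-e) * (1 - X q e) := by
  have := X_neg_mul q e
  linear_combination -this

theorem iv_neg {e : ℤ} (h : IsUnit (1 - X q e)) : iv q (-e) = - X q e * iv q e := by
  have h' : IsUnit (1 - X q (-e)) := by
    rw [one_sub_neg]
    refine IsUnit.mul ?_ h
    have : IsUnit (X q (-e)) := (q^(-e)).isUnit
    exact this.neg
  have h1 := iv_mul q h
  have h2 := iv_mul q h'
  have h3 := X_neg_mul q e
  rw [one_sub_neg] at h2
  calc iv q (-e) = iv q (-e) * ((1 - X q e) * iv q e) * (X q (-e) * X q e) := by rw [h1, h3]; ring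
    _ = - X q e * iv q e * (- X q (-e) * (1 - X q e) * iv q (-e)) := by ring
    _ = _ := by rw [h2]; ring

theorem hh_neg {e : ℤ} (h : IsUnit (1 - X q e)) : hh q (-e) = hh q e := by
  unfold hh
  rw [iv_neg q h]
  have h3 := X_neg_mul q e
  linear_combination (X q e * iv q e ^ 2) * h3

theorem tt_neg {e : ℤ} (h : IsUnit (1 - X q e)) : tt q (-e) = - tt q e := by
  unfold tt
  rw [iv_neg q h]
  have h3 := X_neg_mul q e
  linear_combination (-X q e ^ 2 * (1 + X q (-e)) * iv q e ^ 3 - X q e * iv q e ^ 3) * h3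

theorem iv_congr {e e' : ℤ} (h : X q e = X q e') : iv q e = iv q e' := by
  unfold iv; rw [h]

theorem hh_congr {e e' : ℤ} (h : X q e = X q e') : hh q e = hh q e' := by
  unfold hh; rw [h, iv_congr q h]

theorem tt_congr {e e' : ℤ} (h : X q e = X q e') : tt q e = tt q e' := by
  unfold tt; rw [h, iv_congr q h]

theorem prod_X {ι : Type*} (s : Finset ι) (f : ι → ℤ) : ∏ i ∈ s, X q (f i) = X q (∑ i ∈ s, f i) := by
  classical
  induction s using Finset.induction_on with
  | empty => simp
  | insert a s ha ih => rw [prod_insert ha, sum_insert ha, X_add, ih]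

end

/-- shift identity for sums -/
theorem sum_shift {B : Type*} [AddCommMonoid B] (f : ℕ → B) (s k : ℕ) :
    ∑ l ∈ range s, f (l + 1 + k) + ∑ i ∈ range k, f (i + 1)
      = ∑ l ∈ range s, f (l + 1) + ∑ i ∈ range k, f (s + 1 + i) := by
  have h1 := sum_range_add (fun i => f (i+1)) k s
  have h2 := sum_range_add (fun i => f (i+1)) s k
  rw [add_comm k s] at h1
  rw [h1] at h2
  rw [add_comm]
  calc _ = ∑ x ∈ range k, f (x + 1) + ∑ x ∈ range s, f (k + x + 1) := by
        congr 1
        apply sum_congr rfl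
        intro i _
        congr 1; ring
    _ = _ := h2
    _ = _ := by
        congr 1
        apply sum_congr rfl
        intro i _
        congr 1; ring

theorem prod_shift {B : Type*} [CommMonoid B] (f : ℕ → B) (s k : ℕ) :
    (∏ l ∈ range s, f (l + 1 + k)) * ∏ i ∈ range k, f (i + 1)
      = (∏ l ∈ range s, f (l + 1)) * ∏ i ∈ range k, f (s + 1 + i) := by
  have h1 := prod_range_add (fun i => f (i+1)) k s
  have h2 := prod_range_add (fun i => f (i+1)) s k
  rw [add_comm k s] at h1
  rw [h1] at h2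
  rw [mul_comm]
  calc _ = (∏ x ∈ range k, f (x + 1)) * ∏ x ∈ range s, f (k + x + 1) := by
        congr 1
        apply prod_congr rfl
        intro i _
        congr 1; ring
    _ = _ := h2
    _ = _ := by
        congr 1
        apply prod_congr rfl
        intro i _
        congr 1; ring

end Pool.Agent.D0H46.DC
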