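import Mathlib

namespace Pool.Agent.D0H46.DC

open Finset Polynomial

variable {K : Type*} [Field K]

/-- Divided differences of low-degree polynomials vanish. -/
theorem lag_zero (M : ℕ) (x : ℕ → K) (hx : Set.InjOn x (range (M+1) : Finset ℕ)) (g : K[X])
    (hg : g.natDegree < M) :
    ∑ k ∈ range (M+1), g.eval (x k) / ∏ j ∈ (range (M+1)).erase k, (x k - x j) = 0 := by
  have hdeg : g.degree < #(range (M+1)) := by
    rw [card_range]
    calc g.degree ≤ (g.natDegree : WithBot ℕ) := degree_le_natDegree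
      _ < ((M+1 : ℕ) : WithBot ℕ) := by exact_mod_cast (by omega : g.natDegree < M+1)
  rw [← Lagrange.coeff_eq_sum hx hdeg, card_range]
  exact coeff_eq_zero_of_natDegree_lt (by simpa using hg)

/-- the product of differences of powers -/
def En (Q : K) (M k : ℕ) : K := ∏ j ∈ (range (M+1)).erase k, (Q^k - Q^j)

def Bn (Q : K) (M k : ℕ) : K := ∏ i ∈ range k, ((1 - Q^i / Q^M) / (1 - Q^(i+1)))

def Cn (Q c : K) (M k : ℕ) : K := ∏ i ∈ range k, ((1 - c⁻¹ * Q^i) / (1 - c⁻¹ * Q^(M+1+i)))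

def Fn (Q c : K) (M k : ℕ) : K := ∏ j ∈ range (M+1), (1 - c / (Q^k * Q^j))

theorem erase_succ_range (M k : ℕ) :
    (range (M+2)).erase (k+1) = insert 0 (((range (M+1)).erase k).map ⟨Nat.succ, Nat.succ_injective⟩) := by
  ext a
  cases a with
  | zero => simp
  | succ a => simp

theorem En_succ (Q : K) (M k : ℕ) (hk : k < M + 1) :
    En Q (M+1) (k+1) = (Q^(k+1) - 1) * (Q^M * ∏ j ∈ (range (M+1)).erase k, (Q^k - Q^j)) := by
  unfold En
  rw [erase_succ_range, prod_insert (by simp), prod_map]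
  simp only [Function.Embedding.coeFn_mk, pow_zero]
  congr 1
  have : ∀ j ∈ (range (M+1)).erase k, (Q^(k+1) - Q^(Nat.succ j)) = Q * (Q^k - Q^j) := by
    intro j _
    rw [Nat.succ_eq_add_one]; ring
  rw [prod_congr rfl this, prod_mul_distrib, prod_const]
  rw [card_erase_of_mem (by simpa using hk), card_range]
  simp

theorem En_self (Q : K) (M k : ℕ) (hk : k < M + 1) :
    En Q (M+1) k = (Q^k - Q^(M+1)) * ∏ j ∈ (range (M+1)).erase k, (Q^k - Q^j) := by
  unfold En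
  rw [range_add_one (n := M+1), erase_insert_of_ne (by omega), prod_insert]
  simp

theorem En_ne_zero (Q : K) (M k : ℕ) (hQ : ∀ i j : ℕ, Q^i = Q^j → i = j) : En Q M k ≠ 0 := by
  unfold En
  rw [prod_ne_zero_iff]
  intro j hj
  rw [mem_erase] at hj
  intro h
  exact hj.1 (hQ j k (by linear_combination -h))

theorem BE (Q : K) (hQ0 : Q ≠ 0) (hQ : ∀ i j : ℕ, Q^i = Q^j → i = j) (M k : ℕ) (hk : k ≤ M) :
    Bn Q M k * Q^k * En Q M k = En Q M 0 := by
  induction k with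
  | zero => simp [Bn]
  | succ k ih =>
    obtain ⟨M, rfl⟩ : ∃ M', M = M' + 1 := ⟨M-1, by omega⟩
    have ih' := ih (by omega)
    rw [← ih']
    unfold Bn
    rw [prod_range_succ, En_succ _ _ _ (by omega), En_self Q M k (by omega)]
    have h1 : (1 : K) - Q^(k+1) ≠ 0 := by
      intro h
      have := hQ (k+1) 0 (by rw [pow_zero]; linear_combination -h)
      omega
    have hQM : Q^(M+1) ≠ 0 := pow_ne_zero _ hQ0
    field_simp
    ring

theorem exact1 (Q : K) (hQ0 : Q ≠ 0) (hQ : ∀ i j : ℕ, Q^i = Q^j → i = j) (M : ℕ) (g : K[X])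
    (hg : g.natDegree < M) :
    ∑ k ∈ range (M+1), Bn Q M k * Q^k * g.eval (Q^k) = 0 := by
  have h := lag_zero M (fun k => Q^k) (fun a _ b _ hab => hQ a b hab) g hg
  have h2 : ∑ k ∈ range (M+1), Bn Q M k * Q^k * g.eval (Q^k)
      = En Q M 0 * ∑ k ∈ range (M+1), g.eval (Q^k) / ∏ j ∈ (range (M+1)).erase k, (Q^k - Q^j) := by
    rw [mul_sum]
    apply sum_congr rfl
    intro k hk
    have hE := En_ne_zero Q M k hQ
    have hBE := BE Q hQ0 hQ M k (by simpa [Nat.lt_succ_iff] using hk)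
    change _ = _ * (_ / En Q M k)
    rw [← hBE]
    field_simp
  rw [h2, h, mul_zero]

theorem Fn_succ (Q c : K) (M k : ℕ) :
    Fn Q c M (k+1) * (1 - c / Q^k) = Fn Q c M k * (1 - c / Q^(k+M+1)) := by
  have e1 : Fn Q c M (k+1) * (1 - c / Q^k) = ∏ j ∈ range (M+2), (1 - c / (Q^k * Q^j)) := by
    rw [prod_range_succ']
    unfold Fn
    congr 1
    · apply prod_congr rfl
      intro j _
      rw [pow_succ, pow_succ]
      congr 2
      ring
    · simp
  rw [e1, prod_range_succ]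
  unfold Fn
  rw [← pow_add]
  congr 4

theorem CF (Q c : K) (hQ0 : Q ≠ 0) (hc0 : c ≠ 0) (hc : ∀ j : ℕ, Q^j ≠ c) (M k : ℕ) :
    Q^(k*(M+1)) * Cn Q c M k * Fn Q c M k = Fn Q c M 0 := by
  induction k with
  | zero => simp [Cn]
  | succ k ih =>
    rw [← ih]
    have hF := Fn_succ Q c M k
    have h1 : 1 - c / Q^k ≠ 0 := by
      intro h
      apply hc k
      have : Q^k ≠ 0 := pow_ne_zero _ hQ0
      field_simp at h
      linear_combination h
    have h2 : 1 - c⁻¹ * Q^(M+1+k) ≠ 0 := by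
      intro h
      apply hc (M+1+k)
      field_simp at h
      linear_combination -h
    have hF' : Fn Q c M (k+1) = Fn Q c M k * (1 - c / Q^(k+M+1)) / (1 - c / Q^k) := by
      rw [eq_div_iff h1, hF]
    rw [hF']
    unfold Cn
    rw [prod_range_succ]
    have e1 : (1 - c⁻¹ * Q^k) = - (c⁻¹ * Q^k) * (1 - c / Q^k) := by
      have : Q^k ≠ 0 := pow_ne_zero _ hQ0
      field_simp
      ring
    have e2 : (1 - c / Q^(k+M+1)) = - (c / Q^(k+M+1)) * (1 - c⁻¹ * Q^(M+1+k)) := by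
      have : Q^(k+M+1) ≠ 0 := pow_ne_zero _ hQ0
      have e : Q^(M+1+k) = Q^(k+M+1) := by congr 1; ring
      rw [e]
      field_simp
      ring
    rw [e1, e2]
    generalize 1 - c / Q^k = X at *
    generalize 1 - c⁻¹ * Q^(M+1+k) = Y at *
    have hk0 : Q^k ≠ 0 := pow_ne_zero _ hQ0
    have hk1 : Q^(k+M+1) ≠ 0 := pow_ne_zero _ hQ0
    have e3 : Q^((k+1)*(M+1)) * Q^k = Q^(k*(M+1)) * Q^(k+M+1) := by
      rw [← pow_add, ← pow_add]; congr 1; ring
    generalize (∏ x ∈ range k, (1 - c⁻¹ * Q ^ x) / (1 - c⁻¹ * Q ^ (M + 1 + x))) = Z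
    field_simp
    linear_combination (Z * Fn Q c M k) * e3

/-- the nodes `y_k = Q^k + c Q^{-k}` -/
theorem exact2 (Q c : K) (hQ0 : Q ≠ 0) (hQ : ∀ i j : ℕ, Q^i = Q^j → i = j)
    (hc0 : c ≠ 0) (hc : ∀ j : ℕ, Q^j ≠ c) (M : ℕ) (g : K[X]) (hg : g.natDegree < M) :
    ∑ k ∈ range (M+1), Bn Q M k * Cn Q c M k * Q^(k*M) * (c⁻¹ * Q^(2*k) - 1)
      * g.eval (Q^k + c / Q^k) = 0 := by
  have hy : ∀ k j : ℕ, (Q^k + c / Q^k) - (Q^j + c / Q^j) = (Q^k - Q^j) * (1 - c / (Q^k * Q^j)) := by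
    intro k j
    have h1 : Q^k ≠ 0 := pow_ne_zero _ hQ0
    have h2 : Q^j ≠ 0 := pow_ne_zero _ hQ0
    field_simp
    ring
  have hc1 : ∀ k j : ℕ, 1 - c / (Q^k * Q^j) ≠ 0 := by
    intro k j h
    have h1 : Q^k ≠ 0 := pow_ne_zero _ hQ0
    have h2 : Q^j ≠ 0 := pow_ne_zero _ hQ0
    apply hc (k+j)
    rw [pow_add]
    field_simp at h
    linear_combination h
  have hinj : Set.InjOn (fun k => Q^k + c / Q^k) (range (M+1) : Finset ℕ) := by
    intro a _ b _ hab
    have h := hy a b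
    simp only at hab
    rw [hab, sub_self] at h
    rcases mul_eq_zero.mp h.symm with h | h
    · exact hQ a b (by linear_combination h)
    · exact absurd h (hc1 a b)
  have h := lag_zero M (fun k => Q^k + c / Q^k) hinj g hg
  have h2 : ∑ k ∈ range (M+1), Bn Q M k * Cn Q c M k * Q^(k*M) * (c⁻¹ * Q^(2*k) - 1)
      * g.eval (Q^k + c / Q^k)
      = (En Q M 0 * c⁻¹ * Fn Q c M 0) * ∑ k ∈ range (M+1), g.eval (Q^k + c / Q^k)
        / ∏ j ∈ (range (M+1)).erase k, ((Q^k + c / Q^k) - (Q^j + c / Q^j)) := by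
    rw [mul_sum]
    apply sum_congr rfl
    intro k hk
    have hkM : k ≤ M := by simpa [Nat.lt_succ_iff] using hk
    have hE := En_ne_zero Q M k hQ
    have hBE := BE Q hQ0 hQ M k hkM
    have hCF := CF Q c hQ0 hc0 hc M k
    have hprod : ∏ j ∈ (range (M+1)).erase k, ((Q^k + c / Q^k) - (Q^j + c / Q^j))
        = En Q M k * ∏ j ∈ (range (M+1)).erase k, (1 - c / (Q^k * Q^j)) := by
      rw [prod_congr rfl (fun j _ => hy k j), prod_mul_distrib]
      rfl
    have hF : Fn Q c M k = (1 - c / (Q^k * Q^k)) * ∏ j ∈ (range (M+1)).erase k, (1 - c / (Q^k * Q^j)) := by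
      exact (mul_prod_erase (range (M+1)) (fun j => 1 - c / (Q^k * Q^j)) hk).symm
    have hP : ∏ j ∈ (range (M+1)).erase k, (1 - c / (Q^k * Q^j)) ≠ 0 :=
      prod_ne_zero_iff.mpr (fun j _ => hc1 k j)
    rw [hprod]
    generalize (∏ j ∈ (range (M+1)).erase k, (1 - c / (Q^k * Q^j))) = P at *
    generalize g.eval (Q^k + c / Q^k) = G
    rw [← hCF, ← hBE, hF]
    have hk0 : Q^k ≠ 0 := pow_ne_zero _ hQ0
    have e1 : c⁻¹ * Q^(2*k) - 1 = c⁻¹ * Q^k * Q^k * (1 - c / (Q^k * Q^k)) := by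
      have : Q^(2*k) = Q^k * Q^k := by rw [two_mul, pow_add]
      rw [this]
      field_simp
    have e2 : Q^(k*(M+1)) = Q^(k*M) * Q^k := by rw [← pow_add]; congr 1
    rw [e1, e2]
    generalize 1 - c / (Q^k * Q^k) = W
    generalize Q^(k*M) = QQ
    generalize Q^k = R at *
    field_simp
  rw [h2, h, mul_zero]

end Pool.Agent.D0H46.DC
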