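import Mathlib
import Pool.Agent.D0H46.DC.Lag

namespace Pool.Agent.D0H46.DC

open Finset Polynomial

variable {K : Type*} [Field K]

/-- `P(w) = ∏_{l=1}^{s} (1 - Q^l w)` -/
def Pn (Q : K) (s : ℕ) (w : K) : K := ∏ l ∈ range s, (1 - Q^(l+1) * w)

theorem natDegree_lin (a b : K) : (C a + C b * Polynomial.X : K[X]).natDegree ≤ 1 := by
  apply (natDegree_add_le _ _).trans
  simp only [natDegree_C, max_le_iff]
  refine ⟨by norm_num, ?_⟩
  exact (natDegree_C_mul_le _ _).trans natDegree_X_le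

theorem natDegree_prod_lin {ι : Type*} (s : Finset ι) (f : ι → K[X]) (N : ℕ)
    (h : ∀ i ∈ s, (f i).natDegree ≤ N) : (∏ i ∈ s, f i).natDegree ≤ #s * N := by
  apply (natDegree_prod_le _ _).trans
  calc ∑ i ∈ s, (f i).natDegree ≤ ∑ i ∈ s, N := sum_le_sum h
    _ = _ := by simp

/-- exact identity in case (a) -/
theorem exactA (Q c : K) (hQ0 : Q ≠ 0) (hQ : ∀ i j : ℕ, Q^i = Q^j → i = j)
    (m s : ℕ) (hm : 1 ≤ m) (x y : ℕ → K) :
    ∑ k ∈ range (2 * m * (s + 1) + 1 + 1), Bn Q (2 * m * (s + 1) + 1) k * Q^(m * k)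
      * (c⁻¹ * Q^(2*k) - 1) * ∏ j ∈ range m, (Pn Q s (x j * Q^k) * Pn Q s (y j * Q^k)) = 0 := by
  obtain ⟨m, rfl⟩ : ∃ m', m = m' + 1 := ⟨m - 1, by omega⟩
  set g : K[X] := Polynomial.X^m * (C (-1) + C c⁻¹ * Polynomial.X^2) *
    ∏ j ∈ range (m+1), ((∏ l ∈ range s, (C 1 + C (-(Q^(l+1) * x j)) * Polynomial.X)) *
      ∏ l ∈ range s, (C 1 + C (-(Q^(l+1) * y j)) * Polynomial.X)) with hg
  have hdeg : g.natDegree < 2 * (m+1) * (s + 1) + 1 := by
    have h1 : (Polynomial.X^m * (C (-1) + C c⁻¹ * Polynomial.X^2) : K[X]).natDegree ≤ m + 2 := by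
      apply natDegree_mul_le.trans
      apply add_le_add
      · exact natDegree_X_pow_le m
      · apply (natDegree_add_le _ _).trans
        simp only [natDegree_C, max_le_iff]
        exact ⟨by norm_num, (natDegree_C_mul_le _ _).trans (natDegree_X_pow_le 2)⟩
    have h2 : (∏ j ∈ range (m+1), ((∏ l ∈ range s, (C 1 + C (-(Q^(l+1) * x j)) * Polynomial.X)) *
      ∏ l ∈ range s, (C 1 + C (-(Q^(l+1) * y j)) * Polynomial.X)) : K[X]).natDegree ≤ (m+1) * (s + s) := by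
      have := natDegree_prod_lin (range (m+1)) (fun j => ((∏ l ∈ range s, (C 1 + C (-(Q^(l+1) * x j)) * Polynomial.X)) *
      ∏ l ∈ range s, (C 1 + C (-(Q^(l+1) * y j)) * Polynomial.X) : K[X])) (s + s) (by
        intro j _
        apply natDegree_mul_le.trans
        apply add_le_add
        · have := natDegree_prod_lin (range s) (fun l => (C 1 + C (-(Q^(l+1) * x j)) * Polynomial.X : K[X])) 1
            (fun l _ => natDegree_lin _ _)
          simpa using this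
        · have := natDegree_prod_lin (range s) (fun l => (C 1 + C (-(Q^(l+1) * y j)) * Polynomial.X : K[X])) 1
            (fun l _ => natDegree_lin _ _)
          simpa using this)
      simpa using this
    have h3 := (natDegree_mul_le (p := (Polynomial.X^m * (C (-1) + C c⁻¹ * Polynomial.X^2) : K[X]))
      (q := ∏ j ∈ range (m+1), ((∏ l ∈ range s, (C 1 + C (-(Q^(l+1) * x j)) * Polynomial.X)) *
      ∏ l ∈ range s, (C 1 + C (-(Q^(l+1) * y j)) * Polynomial.X))))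
    calc g.natDegree ≤ (m + 2) + (m+1) * (s + s) := h3.trans (add_le_add h1 h2)
      _ < _ := by ring_nf; omega
  have h := exact1 Q hQ0 hQ (2 * (m+1) * (s+1) + 1) g hdeg
  rw [← h]
  apply sum_congr rfl
  intro k _
  have he : g.eval (Q^k) = (Q^k)^m * (c⁻¹ * Q^(2*k) - 1)
      * ∏ j ∈ range (m+1), (Pn Q s (x j * Q^k) * Pn Q s (y j * Q^k)) := by
    rw [hg]
    simp only [eval_mul, eval_prod, eval_add, eval_C, eval_X, eval_pow]
    congr 1
    · congr 1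
      rw [← pow_mul, mul_comm k 2]; ring
    · apply prod_congr rfl
      intro j _
      unfold Pn
      congr 1
      · apply prod_congr rfl
        intro l _
        ring
      · apply prod_congr rfl
        intro l _
        ring
  rw [he]
  have e2 : Q^((m+1)*k) = Q^k * (Q^k)^m := by rw [← pow_mul, ← pow_add]; congr 1; ring
  rw [e2]; ring

theorem Pn_pair (Q c v : K) (hv : v ≠ 0) (hc : c ≠ 0) (s : ℕ) (hQt : Q^(s+1) * c = v^2) (x a : K)
    (hx : x ≠ 0) (ha : a ≠ 0) :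
    Pn Q s (v⁻¹ * x * a) * Pn Q s (v⁻¹ * x⁻¹ * a)
      = a^s * ∏ l ∈ range s, (c⁻¹ * (a + c / a) - (Q^(l+1) * x + Q^(s - l) * x⁻¹) * v⁻¹) := by
  unfold Pn
  rw [← prod_range_reflect (fun l => (1 - Q^(l+1) * (v⁻¹ * x⁻¹ * a))), ← prod_mul_distrib]
  have : ∀ l ∈ range s, (1 - Q^(l+1) * (v⁻¹ * x * a)) * (1 - Q^((s - 1 - l)+1) * (v⁻¹ * x⁻¹ * a))
      = a * (c⁻¹ * (a + c / a) - (Q^(l+1) * x + Q^(s - l) * x⁻¹) * v⁻¹) := by
    intro l hl
    have hl := mem_range.mp hl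
    have e : s - 1 - l + 1 = s - l := by omega
    rw [e]
    have hQ : Q^(l+1) * Q^(s-l) * c = v^2 := by
      rw [← pow_add, ← hQt]; congr 2; omega
    generalize Q^(l+1) = P1 at *
    generalize Q^(s-l) = P2 at *
    have hc' : c⁻¹ = P1 * P2 * (v⁻¹)^2 := by
      field_simp
      linear_combination -hQ
    have e3 : a * (c⁻¹ * (a + c / a) - (P1 * x + P2 * x⁻¹) * v⁻¹)
        = c⁻¹ * a^2 + 1 - (P1 * x + P2 * x⁻¹) * v⁻¹ * a := by
      field_simp
    rw [e3, hc']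
    field_simp
    ring
  rw [prod_congr rfl this, prod_mul_distrib, prod_const, card_range]

theorem Pn_mid (Q c v : K) (hv : v ≠ 0) (hc : c ≠ 0) (r : ℕ) (hQt : Q^(2*r+1) * c = v^2) (a : K)
    (ha : a ≠ 0) :
    Pn Q (2*r) (v⁻¹ * a)
      = a^r * ∏ l ∈ range r, (c⁻¹ * (a + c / a) - (Q^(l+1) + Q^(2*r - l)) * v⁻¹) := by
  unfold Pn
  rw [two_mul, prod_range_add, ← prod_range_reflect (fun x => (1 - Q^(r+x+1) * (v⁻¹ * a))) r,
    ← prod_mul_distrib]
  have : ∀ l ∈ range r, (1 - Q^(l+1) * (v⁻¹ * a)) * (1 - Q^(r+(r - 1 - l)+1) * (v⁻¹ * a))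
      = a * (c⁻¹ * (a + c / a) - (Q^(l+1) + Q^(r + r - l)) * v⁻¹) := by
    intro l hl
    have hl := mem_range.mp hl
    have e : r + (r - 1 - l) + 1 = r + r - l := by omega
    rw [e]
    have hQ : Q^(l+1) * Q^(r+r-l) * c = v^2 := by
      rw [← pow_add, ← hQt]; congr 2; omega
    generalize Q^(l+1) = P1 at *
    generalize Q^(r+r-l) = P2 at *
    have hc' : c⁻¹ = P1 * P2 * (v⁻¹)^2 := by
      field_simp
      linear_combination -hQ
    have e3 : a * (c⁻¹ * (a + c / a) - (P1 + P2) * v⁻¹)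
        = c⁻¹ * a^2 + 1 - (P1 + P2) * v⁻¹ * a := by
      field_simp
    rw [e3, hc']
    field_simp
    ring
  rw [prod_congr rfl this, prod_mul_distrib, prod_const, card_range]

/-- exact identity in case (b) -/
theorem exactB (Q c v : K) (hQ0 : Q ≠ 0) (hQ : ∀ i j : ℕ, Q^i = Q^j → i = j)
    (hc0 : c ≠ 0) (hc : ∀ j : ℕ, Q^j ≠ c) (hv : v ≠ 0) (m r : ℕ) (hQt : Q^(2*r+1) * c = v^2)
    (x : ℕ → K) (hx : ∀ j, x j ≠ 0) :
    ∑ k ∈ range (m + 1 + (2 * m + 1) * r + 1), Bn Q (m + 1 + (2 * m + 1) * r) k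
      * Cn Q c (m + 1 + (2 * m + 1) * r) k * Q^((m + 1) * k)
      * (c⁻¹ * Q^(2*k) - 1) * (Pn Q (2*r) (v⁻¹ * Q^k) *
        ∏ j ∈ range m, (Pn Q (2*r) (v⁻¹ * x j * Q^k) * Pn Q (2*r) (v⁻¹ * (x j)⁻¹ * Q^k))) = 0 := by
  set g : K[X] := (∏ l ∈ range r, (C (- ((Q^(l+1) + Q^(2*r - l)) * v⁻¹)) + C c⁻¹ * Polynomial.X)) *
    ∏ j ∈ range m, ∏ l ∈ range (2*r), (C (-((Q^(l+1) * x j + Q^(2*r - l) * (x j)⁻¹) * v⁻¹)) + C c⁻¹ * Polynomial.X) with hg
  have hdeg : g.natDegree < m + 1 + (2 * m + 1) * r := by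
    have h1 : (∏ l ∈ range r, (C (- ((Q^(l+1) + Q^(2*r - l)) * v⁻¹)) + C c⁻¹ * Polynomial.X) : K[X]).natDegree ≤ r := by
      have := natDegree_prod_lin (range r) (fun l => (C (- ((Q^(l+1) + Q^(2*r - l)) * v⁻¹)) + C c⁻¹ * Polynomial.X : K[X])) 1
            (fun l _ => natDegree_lin _ _)
      simpa using this
    have h2 : (∏ j ∈ range m, ∏ l ∈ range (2*r), (C (-((Q^(l+1) * x j + Q^(2*r - l) * (x j)⁻¹) * v⁻¹)) + C c⁻¹ * Polynomial.X) : K[X]).natDegree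
        ≤ m * (2 * r) := by
      have := natDegree_prod_lin (range m) (fun j => (∏ l ∈ range (2*r), (C (-((Q^(l+1) * x j + Q^(2*r - l) * (x j)⁻¹) * v⁻¹)) + C c⁻¹ * Polynomial.X) : K[X])) (2*r)
        (by
          intro j _
          have := natDegree_prod_lin (range (2*r)) (fun l => (C (-((Q^(l+1) * x j + Q^(2*r - l) * (x j)⁻¹) * v⁻¹)) + C c⁻¹ * Polynomial.X : K[X])) 1
            (fun l _ => natDegree_lin _ _)
          simpa using this)
      simpa using this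
    calc g.natDegree ≤ r + m * (2 * r) := natDegree_mul_le.trans (add_le_add h1 h2)
      _ < _ := by ring_nf; omega
  have h := exact2 Q c hQ0 hQ hc0 hc (m + 1 + (2 * m + 1) * r) g hdeg
  rw [← h]
  apply sum_congr rfl
  intro k _
  have hk0 : Q^k ≠ 0 := pow_ne_zero _ hQ0
  have he : g.eval (Q^k + c / Q^k) * ((Q^k)^r * ((Q^k)^(2*r))^m) = (Pn Q (2*r) (v⁻¹ * Q^k) *
        ∏ j ∈ range m, (Pn Q (2*r) (v⁻¹ * x j * Q^k) * Pn Q (2*r) (v⁻¹ * (x j)⁻¹ * Q^k))) := by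
    rw [hg, Pn_mid Q c v hv hc0 r hQt (Q^k) hk0]
    have : ∀ j ∈ range m, (Pn Q (2*r) (v⁻¹ * x j * Q^k) * Pn Q (2*r) (v⁻¹ * (x j)⁻¹ * Q^k))
      = (Q^k)^(2*r) * ∏ l ∈ range (2*r), (c⁻¹ * (Q^k + c / Q^k) - (Q^(l+1) * x j + Q^(2*r - l) * (x j)⁻¹) * v⁻¹) :=
      fun j _ => Pn_pair Q c v hv hc0 (2*r) hQt (x j) (Q^k) (hx j) hk0
    rw [prod_congr rfl this, prod_mul_distrib, prod_const, card_range]
    simp only [eval_mul, eval_prod, eval_add, eval_C, eval_X]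
    have f1 : ∏ l ∈ range r, (-((Q^(l+1) + Q^(2*r - l)) * v⁻¹) + c⁻¹ * (Q^k + c / Q^k))
        = ∏ l ∈ range r, (c⁻¹ * (Q^k + c / Q^k) - (Q^(l+1) + Q^(2*r - l)) * v⁻¹) := by
      apply prod_congr rfl; intro l _; ring
    have f2 : ∏ j ∈ range m, ∏ l ∈ range (2*r), (-((Q^(l+1) * x j + Q^(2*r - l) * (x j)⁻¹) * v⁻¹) + c⁻¹ * (Q^k + c / Q^k))
        = ∏ j ∈ range m, ∏ l ∈ range (2*r), (c⁻¹ * (Q^k + c / Q^k) - (Q^(l+1) * x j + Q^(2*r - l) * (x j)⁻¹) * v⁻¹) := by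
      apply prod_congr rfl; intro j _; apply prod_congr rfl; intro l _; ring
    rw [f1, f2]
    ring
  rw [← he]
  have e2 : Q^(k * (m + 1 + (2 * m + 1) * r)) = Q^((m+1)*k) * ((Q^k)^r * ((Q^k)^(2*r))^m) := by
    rw [← pow_mul, ← pow_mul, ← pow_mul, ← pow_add, ← pow_add]; congr 1; ring
  rw [e2]; ring

/-- shifting: `P(y Q^k) ∏_{i<k} (1 - y Q^{i+1}) = P(y) ∏_{i<k} (1 - y Q^{s+1+i})` -/
theorem Pn_shift (Q y : K) (s k : ℕ) :
    Pn Q s (y * Q^k) * ∏ i ∈ range k, (1 - y * Q^(i+1)) = Pn Q s y * ∏ i ∈ range k, (1 - y * Q^(s+1+i)) := by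
  have h1 := prod_range_add (fun i => (1 - y * Q^(i+1))) k s
  have h2 := prod_range_add (fun i => (1 - y * Q^(i+1))) s k
  rw [add_comm k s] at h1
  rw [h1] at h2
  unfold Pn
  rw [mul_comm]
  calc _ = (∏ x ∈ range k, (1 - y * Q^(x+1))) * ∏ x ∈ range s, (1 - y * Q^(k+x+1)) := by
        congr 1
        apply prod_congr rfl
        intro i _
        rw [show k + i + 1 = k + (i+1) by ring, pow_add]; ring
    _ = _ := h2
    _ = _ := by
        congr 1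
        · apply prod_congr rfl
          intro i _
          ring
        · apply prod_congr rfl
          intro i _
          rw [show s + i + 1 = s + 1 + i by ring]

end Pool.Agent.D0H46.DC
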