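import Mathlib
import Pool.Agent.D0H46.DC.Defs
import Pool.Agent.D0H46.DC.ExactP

namespace Pool.Agent.D0H46.DC

open Finset

section
variable {O : Type*} [CommRing O] (q : Oˣ)

/-- hypotheses on the local domain -/
structure Hyp (n : ℕ) : Prop where
  hne : ∀ e : ℤ, e ≠ 0 → X q e ≠ 1
  hu : ∀ e : ℤ, ¬ (n : ℤ) ∣ e → IsUnit (1 - X q e)

/-- the exact terms -/
noncomputable def Tk (m d n : ℕ) (c1 : ℕ → ℤ) (k : ℕ) : O :=
  wk q m d k * (Nm q d n 0 k * Dn q d n 0 k) *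
    ∏ j ∈ range m, ((Nm q d n (c1 j) k * Nm q d n (-(c1 j)) k) *
      (Dn q d n (2 * j + 1) k * Dn q d n (-(2 * j + 1)) k))

/-- `G(e,c) = (1-q^e)^2 / ((1-q^{e+nc})(1-q^{e-nc}))` -/
noncomputable def GG (n : ℕ) (e c : ℤ) : O := (1 - X q e)^2 * (iv q (e + n * c) * iv q (e - n * c))

variable {q}
variable {K : Type*} [Field K] (φ : O →+* K)

theorem phi_X (e : ℤ) : φ (X q e) = (φ (q : O))^e := by
  unfold X
  have h1 : (Units.map (φ : O →* K) q : K) = φ (q : O) := rfl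
  rw [← h1, ← Units.val_zpow_eq_zpow_val, ← map_zpow]
  rfl

theorem phi_q_ne : φ (q : O) ≠ 0 := (q.isUnit.map φ).ne_zero

theorem phi_iv {e : ℤ} (h : IsUnit (1 - X q e)) : φ (iv q e) = (1 - (φ (q : O))^e)⁻¹ := by
  have h1 := congrArg φ (iv_mul q h)
  rw [map_mul, map_sub, map_one, phi_X] at h1
  exact eq_inv_of_mul_eq_one_right h1

theorem phi_Nm (d n : ℕ) (c : ℤ) (k : ℕ) :
    φ (Nm q d n c k) = ∏ i ∈ range k, (1 - (φ (q : O))^(-1 + d * i + n * c : ℤ)) := by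
  unfold Nm
  rw [map_prod]
  apply prod_congr rfl
  intro i _
  rw [map_sub, map_one, phi_X]

theorem phi_Dn (d n : ℕ) (c : ℤ) (k : ℕ) (h : ∀ i < k, IsUnit (1 - X q (d * ((i : ℤ) + 1) + n * c))) :
    φ (Dn q d n c k) = ∏ i ∈ range k, (1 - (φ (q : O))^(d * ((i : ℤ) + 1) + n * c : ℤ))⁻¹ := by
  unfold Dn
  rw [map_prod]
  apply prod_congr rfl
  intro i hi
  rw [phi_iv φ (h i (mem_range.mp hi))]

/-- arithmetic hypotheses on the exponents -/
structure Ar (d n M t a : ℕ) : Prop where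
  hd : ∀ j : ℤ, 0 < j → j < n → ¬ (n : ℤ) ∣ d * j
  hMt : M + t = n
  ht : 0 < t
  hda : d * t + 1 = a * n
  hd0 : 0 < d
  hdn : ∀ j : ℤ, (d : ℤ) * j ≠ 1

variable {d n M t a : ℕ}

theorem Ar.nd (h : Ar d n M t a) {j c : ℤ} (h0 : 0 < j) (h1 : j < n) : ¬ (n : ℤ) ∣ d * j + n * c := by
  intro hh
  apply h.hd j h0 h1
  exact (Int.dvd_add_left (Dvd.intro _ rfl)).mp hh

theorem Ar.uD (h : Ar d n M t a) (H : Hyp q n) {k : ℕ} (hk : k ≤ M) (c : ℤ) :
    ∀ i < k, IsUnit (1 - X q (d * ((i : ℤ) + 1) + n * c)) := by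
  intro i hi
  apply H.hu
  apply h.nd (by positivity)
  have := h.hMt
  have := h.ht
  have : i + 1 < n := by omega
  exact_mod_cast this

theorem Qpow_inj (H : Hyp q n) (hφ : Function.Injective φ) (hd0 : 0 < d) :
    ∀ i j : ℕ, ((φ (q : O))^d)^i = ((φ (q : O))^d)^j → i = j := by
  intro i j hij
  by_contra hne
  have h0 := phi_q_ne (q := q) φ
  have h1 : (φ (q : O))^((d : ℤ) * (i - j)) = 1 := by
    rw [mul_sub, zpow_sub₀ h0]
    rw [← pow_mul, ← pow_mul] at hij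
    have e1 : (φ (q : O))^((d : ℤ) * i) = (φ (q : O))^(d * i) := by
      rw [← zpow_natCast]; push_cast; rfl
    have e2 : (φ (q : O))^((d : ℤ) * j) = (φ (q : O))^(d * j) := by
      rw [← zpow_natCast]; push_cast; rfl
    rw [e1, e2, hij]
    exact div_self (pow_ne_zero _ h0)
  rw [← phi_X, ← map_one φ] at h1
  refine H.hne _ ?_ (hφ h1)
  have : (d : ℤ) ≠ 0 := by exact_mod_cast hd0.ne'
  have : (i : ℤ) - j ≠ 0 := by
    intro hh; apply hne
    have : (i : ℤ) = j := by linarith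
    exact_mod_cast this
  positivity

theorem pow_cast (x : K) (i : ℕ) : (x^d)^i = x^((d : ℤ) * i) := by
  rw [← pow_mul, ← zpow_natCast]; push_cast; rfl

theorem zpow_cast (x : K) (c : ℤ) : (x^n)^c = x^((n : ℤ) * c) := by
  rw [zpow_mul, zpow_natCast]

theorem Pn_eq (s k : ℕ) (c : ℤ) (x : K) (hx : x ≠ 0) :
    Pn (x^d) s ((x^n)^c * (x^d)^k) = ∏ l ∈ range s, (1 - x^((d : ℤ) * (l + 1 + k) + n * c)) := by
  unfold Pn
  apply prod_congr rfl
  intro l _
  congr 1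
  rw [pow_cast, pow_cast, zpow_cast, ← zpow_add₀ hx, ← zpow_add₀ hx]
  congr 1
  push_cast; ring

/-- conversion of `P` to the `Nm`, `Dn` form -/
theorem Ar.Pn_phi (h : Ar d n M t a) (H : Hyp q n) (s : ℕ) (hs : t = s + 1) (k : ℕ) (hk : k ≤ M) (c : ℤ) :
    Pn ((φ (q : O))^d) s (((φ (q : O))^n)^c * ((φ (q : O))^d)^k)
      = Pn ((φ (q : O))^d) s (((φ (q : O))^n)^c) * φ (Nm q d n (c + a) k * Dn q d n c k) := by
  have h0 := phi_q_ne (q := q) φ
  have h1 := Pn_shift ((φ (q : O))^d) (((φ (q : O))^n)^c) s k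
  rw [map_mul, phi_Nm, phi_Dn φ d n c k (h.uD H hk c), prod_inv_distrib]
  have e1 : ∏ i ∈ range k, (1 - ((φ (q : O))^n)^c * ((φ (q : O))^d)^(i+1))
      = ∏ i ∈ range k, (1 - (φ (q : O))^(d * ((i : ℤ) + 1) + n * c : ℤ)) := by
    apply prod_congr rfl
    intro i _
    congr 1
    rw [pow_cast, zpow_cast, ← zpow_add₀ h0]
    congr 1
    push_cast; ring
  have e2 : ∏ i ∈ range k, (1 - ((φ (q : O))^n)^c * ((φ (q : O))^d)^(s+1+i))
      = ∏ i ∈ range k, (1 - (φ (q : O))^(-1 + d * i + n * (c + a) : ℤ)) := by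
    apply prod_congr rfl
    intro i _
    congr 1
    rw [pow_cast, zpow_cast, ← zpow_add₀ h0]
    congr 1
    have := h.hda
    have hda : (d : ℤ) * t + 1 = a * n := by exact_mod_cast this
    rw [hs] at hda
    push_cast at hda ⊢
    linear_combination hda
  rw [e1, e2] at h1
  have hne : ∏ i ∈ range k, (1 - (φ (q : O))^(d * ((i : ℤ) + 1) + n * c : ℤ)) ≠ 0 := by
    rw [prod_ne_zero_iff]
    intro i hi
    have := (h.uD H hk c i (mem_range.mp hi)).map φ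
    rw [map_sub, map_one, phi_X] at this
    exact this.ne_zero
  rw [← mul_assoc, ← h1, mul_assoc, mul_inv_cancel₀ hne, mul_one]

theorem Ar.Pn_ne (h : Ar d n M t a) (H : Hyp q n) (s : ℕ) (hs : t = s + 1) (c : ℤ) :
    Pn ((φ (q : O))^d) s (((φ (q : O))^n)^c) ≠ 0 := by
  have h0 := phi_q_ne (q := q) φ
  have e := Pn_eq (d := d) (n := n) s 0 c (φ (q : O)) h0
  rw [pow_zero, mul_one] at e
  rw [e, prod_ne_zero_iff]
  intro l hl
  have hl := mem_range.mp hl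
  have : IsUnit (1 - X q (d * ((l : ℤ) + 1 + (0 : ℕ)) + n * c)) := by
    apply H.hu
    apply h.nd (by positivity)
    have := h.hMt
    have : l + 1 < n := by omega
    push_cast
    rw [add_zero]
    exact_mod_cast this
  have := this.map φ
  rw [map_sub, map_one, phi_X] at this
  exact this.ne_zero

/-- ratio of `P` products under deformation -/
theorem Ar.Pn_ratio (h : Ar d n M t a) (H : Hyp q n) (s : ℕ) (hs : t = s + 1) (k : ℕ) (hk : k ≤ M) (c b : ℤ) :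
    Pn ((φ (q : O))^d) s (((φ (q : O))^n)^b * ((φ (q : O))^d)^k)
      * Pn ((φ (q : O))^d) s (((φ (q : O))^n)^b * ((φ (q : O))^d)^k)
      = Pn ((φ (q : O))^d) s (((φ (q : O))^n)^(b + c) * ((φ (q : O))^d)^k)
      * Pn ((φ (q : O))^d) s (((φ (q : O))^n)^(b - c) * ((φ (q : O))^d)^k)
      * φ (∏ l ∈ range s, GG q n (d * (l + 1 + k) + n * b) c) := by
  have h0 := phi_q_ne (q := q) φ
  rw [Pn_eq _ _ _ _ h0, Pn_eq _ _ _ _ h0, Pn_eq _ _ _ _ h0, map_prod, ← prod_mul_distrib,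
    ← prod_mul_distrib, ← prod_mul_distrib]
  apply prod_congr rfl
  intro l hl
  have hl := mem_range.mp hl
  unfold GG
  have hlt : (l : ℤ) + 1 + k < n := by
    have := h.hMt
    have : l + 1 + k < n := by omega
    exact_mod_cast this
  have u1 : IsUnit (1 - X q (d * ((l : ℤ) + 1 + k) + n * b + n * c)) := by
    apply H.hu
    have := h.nd (j := (l : ℤ) + 1 + k) (c := b + c) (by positivity) hlt
    have e : (d : ℤ) * (l + 1 + k) + n * (b + c) = d * ((l : ℤ) + 1 + k) + n * b + n * c := by ring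
    rwa [e] at this
  have u2 : IsUnit (1 - X q (d * ((l : ℤ) + 1 + k) + n * b - n * c)) := by
    apply H.hu
    have := h.nd (j := (l : ℤ) + 1 + k) (c := b - c) (by positivity) hlt
    have e : (d : ℤ) * (l + 1 + k) + n * (b - c) = d * ((l : ℤ) + 1 + k) + n * b - n * c := by ring
    rwa [e] at this
  rw [map_mul, map_mul, map_pow, map_sub, map_one, phi_X, phi_iv φ u1, phi_iv φ u2]
  have v1 := (u1.map φ).ne_zero
  have v2 := (u2.map φ).ne_zero
  rw [map_sub, map_one, phi_X] at v1 v2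
  have e1 : (d : ℤ) * (l + 1 + k) + n * (b + c) = d * ((l : ℤ) + 1 + k) + n * b + n * c := by ring
  have e2 : (d : ℤ) * (l + 1 + k) + n * (b - c) = d * ((l : ℤ) + 1 + k) + n * b - n * c := by ring
  rw [e1, e2]
  field_simp

theorem Ar.Bn_phi (h : Ar d n M t a) (H : Hyp q n) (k : ℕ) (hk : k ≤ M) :
    Bn ((φ (q : O))^d) M k = φ (Nm q d n (-(d - a)) k * Dn q d n 0 k) := by
  have h0 := phi_q_ne (q := q) φ
  rw [map_mul, phi_Nm, phi_Dn φ d n 0 k (h.uD H hk 0), ← prod_mul_distrib]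
  unfold Bn
  apply prod_congr rfl
  intro i _
  rw [div_eq_mul_inv]
  congr 1
  · congr 1
    rw [pow_cast, pow_cast, ← zpow_sub₀ h0]
    congr 1
    have hda : (d : ℤ) * t + 1 = a * n := by exact_mod_cast h.hda
    have hnM : (M : ℤ) + t = n := by exact_mod_cast h.hMt
    linear_combination hda - d * hnM
  · congr 2
    rw [pow_cast]
    have e : (d : ℤ) * ((i + 1 : ℕ) : ℤ) = d * ((i : ℤ) + 1) + n * 0 := by push_cast; ring
    rw [e]

theorem Ar.Cn_phi (h : Ar d n M t a) (H : Hyp q n) (k : ℕ) (hk : k ≤ M) :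
    Cn ((φ (q : O))^d) (φ (q : O)) M k = φ (Nm q d n 0 k * Dn q d n (d - a) k) := by
  have h0 := phi_q_ne (q := q) φ
  rw [map_mul, phi_Nm, phi_Dn φ d n (d - a) k (h.uD H hk (d - a)), ← prod_mul_distrib]
  unfold Cn
  apply prod_congr rfl
  intro i _
  rw [div_eq_mul_inv]
  congr 1
  · congr 1
    rw [pow_cast, ← zpow_neg_one, ← zpow_add₀ h0]
    congr 1
    ring
  · congr 2
    rw [pow_cast, ← zpow_neg_one, ← zpow_add₀ h0]
    congr 1
    have hda : (d : ℤ) * t + 1 = a * n := by exact_mod_cast h.hda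
    have hnM : (M : ℤ) + t = n := by exact_mod_cast h.hMt
    push_cast
    linear_combination -hda + d * hnM

theorem wk_phi (m d k : ℕ) :
    φ (wk q m d k) = ((φ (q : O))^d)^(m * k) * ((φ (q : O))⁻¹ * ((φ (q : O))^d)^(2*k) - 1) := by
  have h0 := phi_q_ne (q := q) φ
  unfold wk
  rw [map_mul, map_sub, map_one, phi_X, phi_X, pow_cast, pow_cast, ← zpow_neg_one, ← zpow_add₀ h0]
  congr 2
  · push_cast; ring
  · congr 1; push_cast; ring

theorem reindex_a (m : ℕ) (f : ℤ → O) :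
    f (-(2 * (m : ℤ))) * ∏ j ∈ range m, (f (2 * (j : ℤ) + 1 + 1) * f (-(2 * (j : ℤ) + 1) + 1))
      = f 0 * ∏ j ∈ range m, (f (2 * (j : ℤ) + 2) * f (-(2 * (j : ℤ) + 2))) := by
  rw [prod_mul_distrib, prod_mul_distrib]
  have e1 : ∏ j ∈ range m, f (2 * (j : ℤ) + 1 + 1) = ∏ j ∈ range m, f (2 * (j : ℤ) + 2) := by
    apply prod_congr rfl; intro j _; congr 1
  have e2 : f (-(2 * (m : ℤ))) * ∏ j ∈ range m, f (-(2 * (j : ℤ) + 1) + 1)
      = f 0 * ∏ j ∈ range m, f (-(2 * (j : ℤ) + 2)) := by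
    have h1 := prod_range_succ (fun j : ℕ => f (-(2 * (j : ℤ)))) m
    have h2 := prod_range_succ' (fun j : ℕ => f (-(2 * (j : ℤ)))) m
    rw [h1] at h2
    have e3 : ∏ j ∈ range m, f (-(2 * (j : ℤ) + 1) + 1) = ∏ j ∈ range m, f (-(2 * (j : ℤ))) := by
      apply prod_congr rfl; intro j _; congr 1; ring
    have e4 : ∏ j ∈ range m, f (-(2 * (j : ℤ) + 2)) = ∏ j ∈ range m, f (-(2 * ((j + 1 : ℕ) : ℤ))) := by
      apply prod_congr rfl; intro j _; congr 1
    rw [e3, e4, mul_comm, h2, mul_comm]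
    simp
  rw [e1]
  calc _ = (∏ j ∈ range m, f (2 * (j : ℤ) + 2)) * (f (-(2 * (m : ℤ))) * ∏ j ∈ range m, f (-(2 * (j : ℤ) + 1) + 1)) := by ring
    _ = _ := by rw [e2]; ring

theorem reindex_b (m : ℕ) (f : ℤ → O) :
    f (-(2 * (m : ℤ) + 1)) * f 1 * ∏ j ∈ range m, (f (2 * (j : ℤ) + 3) * f (-(2 * (j : ℤ) + 1)))
      = ∏ j ∈ range (m+1), (f (2 * (j : ℤ) + 1) * f (-(2 * (j : ℤ) + 1))) := by
  rw [prod_mul_distrib, prod_mul_distrib, prod_range_succ (fun j : ℕ => f (-(2 * (j : ℤ) + 1))),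
    prod_range_succ' (fun j : ℕ => f (2 * (j : ℤ) + 1))]
  have e1 : ∏ j ∈ range m, f (2 * (j : ℤ) + 3) = ∏ j ∈ range m, f (2 * ((j + 1 : ℕ) : ℤ) + 1) := by
    apply prod_congr rfl; intro j _
    have e : 2 * (j : ℤ) + 3 = 2 * ((j + 1 : ℕ) : ℤ) + 1 := by push_cast; ring
    rw [e]
  rw [e1]
  simp
  ring

end
end Pool.Agent.D0H46.DC
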