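import Mathlib
import Pool.Agent.D0H46.DC.ExactO

namespace Pool.Agent.D0H46.DC

open Finset

section
variable {O : Type*} [CommRing O] {q : Oˣ}
variable {K : Type*} [Field K] (φ : O →+* K)
variable {d n M t a : ℕ}

/-- terms in case (a) -/
noncomputable def tA (Q c V : K) (M m s : ℕ) (α β : ℕ → ℤ) (k : ℕ) : K :=
  Bn Q M k * Q^(m * k) * (c⁻¹ * Q^(2*k) - 1) * ∏ j ∈ range m, (Pn Q s (V^(α j) * Q^k) * Pn Q s (V^(β j) * Q^k))

theorem tA_phi (h : Ar d n M t 1) (H : Hyp q n) (m s : ℕ) (hm : d = 2 * m + 1) (hs : t = s + 1) (k : ℕ) (hk : k ≤ M) :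
    tA ((φ (q : O))^d) (φ (q : O)) ((φ (q : O))^n) M m s (fun j => 2 * (j : ℤ) + 1) (fun j => -(2 * (j : ℤ) + 1)) k
      = (∏ j ∈ range m, (Pn ((φ (q : O))^d) s (((φ (q : O))^n)^(2 * (j : ℤ) + 1))
        * Pn ((φ (q : O))^d) s (((φ (q : O))^n)^(-(2 * (j : ℤ) + 1)))))
        * φ (Tk q m d n (fun j => 2 * (j : ℤ) + 2) k) := by
  unfold tA
  have e1 : ∀ j ∈ range m, (Pn ((φ (q : O))^d) s (((φ (q : O))^n)^(2 * (j : ℤ) + 1) * ((φ (q : O))^d)^k)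
        * Pn ((φ (q : O))^d) s (((φ (q : O))^n)^(-(2 * (j : ℤ) + 1)) * ((φ (q : O))^d)^k))
      = (Pn ((φ (q : O))^d) s (((φ (q : O))^n)^(2 * (j : ℤ) + 1))
        * Pn ((φ (q : O))^d) s (((φ (q : O))^n)^(-(2 * (j : ℤ) + 1))))
        * φ ((Nm q d n (2 * (j : ℤ) + 1 + 1) k * Nm q d n (-(2 * (j : ℤ) + 1) + 1) k) *
          (Dn q d n (2 * j + 1) k * Dn q d n (-(2 * j + 1)) k)) := by
    intro j _
    rw [h.Pn_phi φ H s hs k hk, h.Pn_phi φ H s hs k hk]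
    simp only [map_mul, Nat.cast_one]
    ring
  rw [prod_congr rfl e1, prod_mul_distrib (f := fun j : ℕ => (Pn ((φ (q : O))^d) s (((φ (q : O))^n)^(2 * (j : ℤ) + 1))
        * Pn ((φ (q : O))^d) s (((φ (q : O))^n)^(-(2 * (j : ℤ) + 1)))))]
  rw [← map_prod, h.Bn_phi φ H k hk, mul_assoc (φ _), ← wk_phi]
  generalize (∏ j ∈ range m, (Pn ((φ (q : O))^d) s (((φ (q : O))^n)^(2 * (j : ℤ) + 1))
        * Pn ((φ (q : O))^d) s (((φ (q : O))^n)^(-(2 * (j : ℤ) + 1))))) = C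
  rw [← map_mul, mul_left_comm, ← map_mul]
  congr 2
  unfold Tk
  rw [prod_mul_distrib, prod_mul_distrib (f := fun j : ℕ => Nm q d n (2 * (j : ℤ) + 2) k * Nm q d n (-(2 * (j : ℤ) + 2)) k)]
  have := reindex_a m (fun c => Nm q d n c k)
  have e2 : (-((d : ℤ) - (1 : ℕ))) = -(2 * (m : ℤ)) := by rw [hm]; push_cast; ring
  rw [e2]
  linear_combination (wk q m d k * Dn q d n 0 k * ∏ x ∈ range m, (Dn q d n (2 * x + 1) k * Dn q d n (-(2 * x + 1)) k)) * this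

theorem tA_ratio (h : Ar d n M t 1) (H : Hyp q n) (m s : ℕ) (hs : t = s + 1) (k : ℕ) (hk : k ≤ M) :
    tA ((φ (q : O))^d) (φ (q : O)) ((φ (q : O))^n) M (m+1) s (fun j => if j = 0 then 0 else 2 * (j : ℤ) + 1)
      (fun j => if j = 0 then 0 else -(2 * (j : ℤ) + 1)) k
      = tA ((φ (q : O))^d) (φ (q : O)) ((φ (q : O))^n) M (m+1) s (fun j => 2 * (j : ℤ) + 1) (fun j => -(2 * (j : ℤ) + 1)) k
        * φ (∏ l ∈ range s, GG q n (d * (l + 1 + k)) 1) := by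
  unfold tA
  rw [prod_range_succ', prod_range_succ']
  simp only [Nat.cast_add, Nat.cast_one, if_true, Nat.cast_zero, mul_zero, zero_add, if_false, Nat.succ_ne_zero]
  have := h.Pn_ratio φ H s hs k hk 1 0
  rw [zero_add, zero_sub, mul_zero] at this
  simp only [add_zero] at this
  rw [this]
  ring

theorem sumT_a [IsDomain O] (h : Ar d n M t 1) (H : Hyp q n) (m : ℕ) (hm : d = 2 * m + 1) (h1 : 1 ≤ m)
    (hM : M = 2 * m * t + 1) :
    ∑ k ∈ range (M+1), Tk q m d n (fun j => 2 * (j : ℤ) + 2) k = 0 ∧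
    ∑ k ∈ range (M+1), Tk q m d n (fun j => 2 * (j : ℤ) + 2) k *
      ∏ l ∈ range (t-1), GG q n (d * (l + 1 + k)) 1 = 0 := by
  obtain ⟨s, hs⟩ : ∃ s, t = s + 1 := ⟨t - 1, by have := h.ht; omega⟩
  have hs1 : t - 1 = s := by omega
  set K := FractionRing O
  set φ : O →+* K := algebraMap O K
  have hφ : Function.Injective φ := IsFractionRing.injective O K
  have hQ0 : (φ (q : O))^d ≠ 0 := pow_ne_zero _ (phi_q_ne φ)
  have hQ := Qpow_inj φ H hφ h.hd0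
  set C := (∏ j ∈ range m, (Pn ((φ (q : O))^d) s (((φ (q : O))^n)^(2 * (j : ℤ) + 1))
        * Pn ((φ (q : O))^d) s (((φ (q : O))^n)^(-(2 * (j : ℤ) + 1))))) with hC
  have hC0 : C ≠ 0 := by
    rw [hC, prod_ne_zero_iff]
    intro j _
    exact mul_ne_zero (h.Pn_ne φ H s hs _) (h.Pn_ne φ H s hs _)
  have hk' : ∀ k ∈ range (M+1), k ≤ M := fun k hk => by simpa [Nat.lt_succ_iff] using hk
  constructor
  · have e := exactA ((φ (q : O))^d) (φ (q : O)) hQ0 hQ m s h1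
      (fun j => ((φ (q : O))^n)^(2 * (j : ℤ) + 1)) (fun j => ((φ (q : O))^n)^(-(2 * (j : ℤ) + 1)))
    rw [← hs, ← hM] at e
    have e2 : ∀ k ∈ range (M+1), Bn ((φ (q : O))^d) M k * ((φ (q : O))^d)^(m * k) * ((φ (q : O))⁻¹ * ((φ (q : O))^d)^(2*k) - 1) *
        ∏ j ∈ range m, (Pn ((φ (q : O))^d) s (((φ (q : O))^n)^(2 * (j : ℤ) + 1) * ((φ (q : O))^d)^k)
          * Pn ((φ (q : O))^d) s (((φ (q : O))^n)^(-(2 * (j : ℤ) + 1)) * ((φ (q : O))^d)^k))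
        = C * φ (Tk q m d n (fun j => 2 * (j : ℤ) + 2) k) := fun k hk => tA_phi φ h H m s hm hs k (hk' k hk)
    rw [sum_congr rfl e2, ← mul_sum, ← map_sum] at e
    rcases mul_eq_zero.mp e with e | e
    · exact absurd e hC0
    · exact (map_eq_zero_iff φ hφ).mp e
  · obtain ⟨m', hm'⟩ : ∃ m', m = m' + 1 := ⟨m - 1, by omega⟩
    have e := exactA ((φ (q : O))^d) (φ (q : O)) hQ0 hQ m s h1
      (fun j => ((φ (q : O))^n)^(if j = 0 then 0 else 2 * (j : ℤ) + 1)) (fun j => ((φ (q : O))^n)^(if j = 0 then 0 else -(2 * (j : ℤ) + 1)))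
    rw [← hs, ← hM] at e
    have e2 : ∀ k ∈ range (M+1), Bn ((φ (q : O))^d) M k * ((φ (q : O))^d)^(m * k) * ((φ (q : O))⁻¹ * ((φ (q : O))^d)^(2*k) - 1) *
        ∏ j ∈ range m, (Pn ((φ (q : O))^d) s (((φ (q : O))^n)^(if j = 0 then 0 else 2 * (j : ℤ) + 1) * ((φ (q : O))^d)^k)
          * Pn ((φ (q : O))^d) s (((φ (q : O))^n)^(if j = 0 then 0 else -(2 * (j : ℤ) + 1)) * ((φ (q : O))^d)^k))
        = C * φ (Tk q m d n (fun j => 2 * (j : ℤ) + 2) k * ∏ l ∈ range s, GG q n (d * (l + 1 + k)) 1) := by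
      intro k hk
      have f1 := tA_phi φ h H m s hm hs k (hk' k hk)
      have f2 := tA_ratio φ h H m' s hs k (hk' k hk)
      rw [← hm', f1] at f2
      rw [map_mul, ← mul_assoc]
      exact f2
    rw [sum_congr rfl e2, ← mul_sum, ← map_sum] at e
    rw [hs1]
    rcases mul_eq_zero.mp e with e | e
    · exact absurd e hC0
    · exact (map_eq_zero_iff φ hφ).mp e

/-- terms in case (b) -/
noncomputable def tB (Q c V : K) (M m s : ℕ) (α β : ℕ → ℤ) (k : ℕ) : K :=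
  Bn Q M k * Cn Q c M k * Q^((m + 1) * k) * (c⁻¹ * Q^(2*k) - 1) * (Pn Q s (V^(-1 : ℤ) * Q^k) *
    ∏ j ∈ range m, (Pn Q s (V^(α j) * Q^k) * Pn Q s (V^(β j) * Q^k)))

theorem tB_phi (h : Ar d n M t 2) (H : Hyp q n) (m s : ℕ) (hm : d = 2 * (m + 1) + 1) (hs : t = s + 1) (k : ℕ) (hk : k ≤ M) :
    tB ((φ (q : O))^d) (φ (q : O)) ((φ (q : O))^n) M m s (fun j => 2 * (j : ℤ) + 1) (fun j => -(2 * (j : ℤ) + 3)) k
      = (Pn ((φ (q : O))^d) s (((φ (q : O))^n)^(-1 : ℤ)) * ∏ j ∈ range m, (Pn ((φ (q : O))^d) s (((φ (q : O))^n)^(2 * (j : ℤ) + 1))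
        * Pn ((φ (q : O))^d) s (((φ (q : O))^n)^(-(2 * (j : ℤ) + 3)))))
        * φ (Tk q (m+1) d n (fun j => 2 * (j : ℤ) + 1) k) := by
  unfold tB
  have e1 : ∀ j ∈ range m, (Pn ((φ (q : O))^d) s (((φ (q : O))^n)^(2 * (j : ℤ) + 1) * ((φ (q : O))^d)^k)
        * Pn ((φ (q : O))^d) s (((φ (q : O))^n)^(-(2 * (j : ℤ) + 3)) * ((φ (q : O))^d)^k))
      = (Pn ((φ (q : O))^d) s (((φ (q : O))^n)^(2 * (j : ℤ) + 1))
        * Pn ((φ (q : O))^d) s (((φ (q : O))^n)^(-(2 * (j : ℤ) + 3))))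
        * φ ((Nm q d n (2 * (j : ℤ) + 3) k * Nm q d n (-(2 * (j : ℤ) + 1)) k) *
          (Dn q d n (-(2 * (j : ℤ) + 3)) k * Dn q d n (-(-(2 * (j : ℤ) + 1))) k)) := by
    intro j _
    rw [h.Pn_phi φ H s hs k hk, h.Pn_phi φ H s hs k hk]
    have f1 : (2 * (j : ℤ) + 1 + (2 : ℕ)) = 2 * (j : ℤ) + 3 := by push_cast; ring
    have f2 : (-(2 * (j : ℤ) + 3) + (2 : ℕ)) = -(2 * (j : ℤ) + 1) := by push_cast; ring
    rw [f1, f2, neg_neg]
    simp only [map_mul]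
    ring
  rw [prod_congr rfl e1, prod_mul_distrib (f := fun j : ℕ => (Pn ((φ (q : O))^d) s (((φ (q : O))^n)^(2 * (j : ℤ) + 1))
        * Pn ((φ (q : O))^d) s (((φ (q : O))^n)^(-(2 * (j : ℤ) + 3)))))]
  rw [← map_prod, h.Bn_phi φ H k hk, h.Cn_phi φ H k hk, mul_assoc (φ _ * φ _), ← wk_phi,
    h.Pn_phi φ H s hs k hk]
  generalize (∏ j ∈ range m, (Pn ((φ (q : O))^d) s (((φ (q : O))^n)^(2 * (j : ℤ) + 1))
        * Pn ((φ (q : O))^d) s (((φ (q : O))^n)^(-(2 * (j : ℤ) + 3))))) = C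
  generalize Pn ((φ (q : O))^d) s (((φ (q : O))^n)^(-1 : ℤ)) = C'
  have e3 : Nm q d n (-(d - (2 : ℕ))) k * Dn q d n 0 k * (Nm q d n 0 k * Dn q d n (d - (2 : ℕ)) k) * wk q (m+1) d k
      * ((Nm q d n (-1 + (2 : ℕ)) k * Dn q d n (-1) k) * ∏ j ∈ range m, ((Nm q d n (2 * (j : ℤ) + 3) k * Nm q d n (-(2 * (j : ℤ) + 1)) k) *
          (Dn q d n (-(2 * (j : ℤ) + 3)) k * Dn q d n (-(-(2 * (j : ℤ) + 1))) k)))
      = Tk q (m+1) d n (fun j => 2 * (j : ℤ) + 1) k := by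
    unfold Tk
    rw [prod_mul_distrib, prod_mul_distrib (f := fun j : ℕ => Nm q d n (2 * (j : ℤ) + 1) k * Nm q d n (-(2 * (j : ℤ) + 1)) k)]
    have r1 := reindex_b m (fun c => Nm q d n c k) 
    have r2 := reindex_b m (fun c => Dn q d n (-c) k)
    have e2 : (-((d : ℤ) - (2 : ℕ))) = -(2 * (m : ℤ) + 1) := by rw [hm]; push_cast; ring
    have e2' : (((d : ℤ) - (2 : ℕ))) = (2 * (m : ℤ) + 1) := by rw [hm]; push_cast; ring
    have e4 : (-1 + ((2 : ℕ) : ℤ)) = 1 := by norm_num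
    rw [e2, e2', e4]
    rw [← r1]
    have r3 : ∏ j ∈ range (m+1), (Dn q d n (2 * (j : ℤ) + 1) k * Dn q d n (-(2 * (j : ℤ) + 1)) k)
        = ∏ j ∈ range (m+1), (Dn q d n (-(2 * (j : ℤ) + 1)) k * Dn q d n (-(-(2 * (j : ℤ) + 1))) k) := by
      apply prod_congr rfl; intro j _; rw [neg_neg]; ring
    rw [r3, ← r2]
    simp only [neg_neg]
    ring
  rw [← e3]
  simp only [map_mul]
  ring

theorem tB_ratio (h : Ar d n M t 2) (H : Hyp q n) (m s : ℕ) (hs : t = s + 1) (k : ℕ) (hk : k ≤ M) :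
    tB ((φ (q : O))^d) (φ (q : O)) ((φ (q : O))^n) M (m+1) s (fun j => if j = 0 then -1 else 2 * (j : ℤ) + 1)
      (fun j => if j = 0 then -1 else -(2 * (j : ℤ) + 3)) k
      = tB ((φ (q : O))^d) (φ (q : O)) ((φ (q : O))^n) M (m+1) s (fun j => 2 * (j : ℤ) + 1) (fun j => -(2 * (j : ℤ) + 3)) k
        * φ (∏ l ∈ range s, GG q n (d * (l + 1 + k) + n * (-1)) 2) := by
  unfold tB
  rw [prod_range_succ', prod_range_succ']
  simp only [Nat.cast_add, Nat.cast_one, if_true, Nat.cast_zero, mul_zero, zero_add, if_false, Nat.succ_ne_zero]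
  have := h.Pn_ratio φ H s hs k hk 2 (-1)
  have e1 : ((-1 : ℤ) + 2) = 1 := by norm_num
  have e2 : ((-1 : ℤ) - 2) = -3 := by norm_num
  rw [e1, e2] at this
  rw [this]
  ring

theorem sumT_b [IsDomain O] (h : Ar d n M t 2) (H : Hyp q n) (m r : ℕ) (hm : d = 2 * m + 1) (h1 : 2 ≤ m)
    (hr : t = 2 * r + 1) :
    ∑ k ∈ range (M+1), Tk q m d n (fun j => 2 * (j : ℤ) + 1) k = 0 ∧
    ∑ k ∈ range (M+1), Tk q m d n (fun j => 2 * (j : ℤ) + 1) k *
      ∏ l ∈ range (t-1), GG q n (d * (l + 1 + k) + n * (-1)) 2 = 0 := by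
  have hs : t = 2 * r + 1 := hr
  have hs1 : t - 1 = 2 * r := by omega
  obtain ⟨m, rfl⟩ : ∃ m', m = m' + 1 := ⟨m - 1, by omega⟩
  set K := FractionRing O
  set φ : O →+* K := algebraMap O K
  have hφ : Function.Injective φ := IsFractionRing.injective O K
  have h0 := phi_q_ne (q := q) φ
  have hQ0 : (φ (q : O))^d ≠ 0 := pow_ne_zero _ (phi_q_ne φ)
  have hQ := Qpow_inj φ H hφ h.hd0
  have hda : (d : ℤ) * t + 1 = 2 * n := by exact_mod_cast h.hda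
  have hM : M = m + 1 + (2 * m + 1) * r := by
    have e1 := h.hMt
    have e2 := h.hda
    subst hm hr
    have : 2 * (M + (2 * r + 1)) = (2 * (m + 1) + 1) * (2 * r + 1) + 1 := by rw [e1, e2]
    have e3 : 2 * M = 2 * (m + 1 + (2 * m + 1) * r) := by
      have e4 : (2 * (m + 1) + 1) * (2 * r + 1) + 1 = 2 * (m + 1 + (2 * m + 1) * r) + 2 * (2 * r + 1) := by ring
      omega
    omega
  have hc : ∀ j : ℕ, ((φ (q : O))^d)^j ≠ φ (q : O) := by
    intro j hj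
    rw [pow_cast] at hj
    have : (φ (q : O))^((d : ℤ) * j - 1) = 1 := by
      rw [zpow_sub₀ h0, hj, zpow_one]
      exact div_self h0
    rw [← phi_X, ← map_one φ] at this
    refine H.hne _ ?_ (hφ this)
    intro hh
    exact h.hdn j (by linarith)
  have hv : (φ (q : O))^n ≠ 0 := pow_ne_zero _ h0
  have hQt : ((φ (q : O))^d)^(2*r+1) * (φ (q : O)) = ((φ (q : O))^n)^2 := by
    rw [← hr, ← pow_mul, ← pow_succ, h.hda, ← pow_mul]; congr 1; ring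
  set C := (Pn ((φ (q : O))^d) (2*r) (((φ (q : O))^n)^(-1 : ℤ)) * ∏ j ∈ range m, (Pn ((φ (q : O))^d) (2*r) (((φ (q : O))^n)^(2 * (j : ℤ) + 1))
        * Pn ((φ (q : O))^d) (2*r) (((φ (q : O))^n)^(-(2 * (j : ℤ) + 3))))) with hC
  have hC0 : C ≠ 0 := by
    rw [hC]
    refine mul_ne_zero (h.Pn_ne φ H (2*r) hs _) ?_
    rw [prod_ne_zero_iff]
    intro j _
    exact mul_ne_zero (h.Pn_ne φ H (2*r) hs _) (h.Pn_ne φ H (2*r) hs _)
  have hk' : ∀ k ∈ range (M+1), k ≤ M := fun k hk => by simpa [Nat.lt_succ_iff] using hk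
  -- general form of the exact identity
  have gen : ∀ γ : ℕ → ℤ, ∑ k ∈ range (M+1), tB ((φ (q : O))^d) (φ (q : O)) ((φ (q : O))^n) M m (2*r)
      (fun j => -1 + γ j) (fun j => -1 - γ j) k = 0 := by
    intro γ
    have e := exactB ((φ (q : O))^d) (φ (q : O)) ((φ (q : O))^n) hQ0 hQ h0 hc hv m r hQt
      (fun j => ((φ (q : O))^n)^(γ j)) (fun j => zpow_ne_zero _ hv)
    rw [← hM] at e
    rw [← e]
    apply sum_congr rfl
    intro k _
    unfold tB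
    congr 2
    · rw [zpow_neg_one]
    · apply prod_congr rfl
      intro j _
      have g1 : ((φ (q : O))^n)^(-1 + γ j) = (((φ (q : O))^n))⁻¹ * ((φ (q : O))^n)^(γ j) := by
        rw [zpow_add₀ hv, zpow_neg_one]
      have g2 : ((φ (q : O))^n)^(-1 - γ j) = (((φ (q : O))^n))⁻¹ * (((φ (q : O))^n)^(γ j))⁻¹ := by
        rw [sub_eq_add_neg, zpow_add₀ hv, zpow_neg_one, zpow_neg]
      rw [g1, g2]
  constructor
  · have e := gen (fun j => 2 * (j : ℤ) + 2)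
    have e2 : ∀ k ∈ range (M+1), tB ((φ (q : O))^d) (φ (q : O)) ((φ (q : O))^n) M m (2*r)
      (fun j => -1 + (2 * (j : ℤ) + 2)) (fun j => -1 - (2 * (j : ℤ) + 2)) k
        = C * φ (Tk q (m+1) d n (fun j => 2 * (j : ℤ) + 1) k) := by
      intro k hk
      rw [← tB_phi φ h H m (2*r) hm hs k (hk' k hk)]
      congr 1
      · funext j; ring
      · funext j; ring
    rw [sum_congr rfl e2, ← mul_sum, ← map_sum] at e
    rcases mul_eq_zero.mp e with e | e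
    · exact absurd e hC0
    · exact (map_eq_zero_iff φ hφ).mp e
  · obtain ⟨m', hm'⟩ : ∃ m', m = m' + 1 := ⟨m - 1, by omega⟩
    have e := gen (fun j => if j = 0 then 0 else 2 * (j : ℤ) + 2)
    have e2 : ∀ k ∈ range (M+1), tB ((φ (q : O))^d) (φ (q : O)) ((φ (q : O))^n) M m (2*r)
      (fun j => -1 + (if j = 0 then 0 else 2 * (j : ℤ) + 2)) (fun j => -1 - (if j = 0 then 0 else 2 * (j : ℤ) + 2)) k
        = C * φ (Tk q (m+1) d n (fun j => 2 * (j : ℤ) + 1) k * ∏ l ∈ range (2*r), GG q n (d * (l + 1 + k) + n * (-1)) 2) := by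
      intro k hk
      have f1 := tB_phi φ h H m (2*r) hm hs k (hk' k hk)
      have f2 := tB_ratio φ h H m' (2*r) hs k (hk' k hk)
      rw [← hm', f1] at f2
      rw [map_mul, ← mul_assoc, ← f2]
      congr 1
      · funext j; split_ifs <;> ring
      · funext j; split_ifs <;> ring
    rw [sum_congr rfl e2, ← mul_sum, ← map_sum] at e
    rw [hs1]
    rcases mul_eq_zero.mp e with e | e
    · exact absurd e hC0
    · exact (map_eq_zero_iff φ hφ).mp e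

end
end Pool.Agent.D0H46.DC
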