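import Mathlib
import Pool.Agent.D0H46.DC.Defs

namespace Pool.Agent.D0H46.DC

open Finset

section
variable {A : Type*} [CommRing A] (q : Aˣ)

/-- arithmetic hypotheses in the residue ring -/
structure Res (d n M t a : ℕ) : Prop where
  hn : X q n = 1
  hu : ∀ e : ℤ, ¬ (n : ℤ) ∣ e → IsUnit (1 - X q e)
  hd : ∀ j : ℤ, 0 < j → j < n → ¬ (n : ℤ) ∣ d * j
  hMt : M + t = n
  ht : 0 < t
  hda : d * t + 1 = a * n

variable {q} {d n M t a : ℕ}

theorem Res.per (h : Res q d n M t a) (e c : ℤ) : X q (e + n * c) = X q e := by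
  have : X q (n * c) = 1 := by
    have h1 := h.hn
    unfold X at h1 ⊢
    rw [zpow_mul]
    have : q ^ (n : ℤ) = 1 := by
      ext; simpa using h1
    rw [this]; simp
  rw [X_add, this, mul_one]

theorem Res.da (h : Res q d n M t a) : (d : ℤ) * t + 1 = a * n := by exact_mod_cast h.hda

theorem Res.nM (h : Res q d n M t a) : (M : ℤ) + t = n := by exact_mod_cast h.hMt

theorem Res.X_eq (h : Res q d n M t a) {e e' c : ℤ} (he : e = e' + n * c) : X q e = X q e' := by
  rw [he, h.per]

/-- `X (-1 + d i) = X (d (t + i))` -/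
theorem Res.Xm1 (h : Res q d n M t a) (i : ℤ) : X q (-1 + d * i) = X q (d * (t + i)) :=
  h.X_eq (c := -a) (by linear_combination -h.da)

theorem Res.Xm2 (h : Res q d n M t a) (i : ℤ) : X q (-1 + d * i) = X q (-(d * (M - i))) :=
  h.X_eq (c := d - a) (by linear_combination -h.da + d * h.nM)

theorem Res.u1 (h : Res q d n M t a) {i : ℕ} (hi : i < M) : IsUnit (1 - X q (-1 + d * i)) := by
  rw [h.Xm1]
  apply h.hu
  apply h.hd
  · have := h.ht; positivity
  · have := h.hMt
    have : t + i < n := by omega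
    exact_mod_cast this

theorem Res.u2 (h : Res q d n M t a) {i : ℕ} (hi : i < M) : IsUnit (1 - X q (d * (i + 1))) := by
  apply h.hu
  apply h.hd
  · positivity
  · have := h.hMt
    have := h.ht
    have : i + 1 < n := by omega
    exact_mod_cast this

theorem Ak_succ (k : ℕ) : Ak q d (k+1) = Ak q d k * ((1 - X q (-1 + d * k)) * iv q (d * (k + 1))) := by
  unfold Ak; rw [prod_range_succ]

theorem Res.Ak_rev (h : Res q d n M t a) (k : ℕ) (hk : k ≤ M) :
    Ak q d (M - k) = X q ((1 + d) * k) * Ak q d M * Ak q d k := by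
  induction k with
  | zero => simp [Ak]
  | succ k ih =>
    obtain ⟨N, rfl⟩ : ∃ N, M = N + k + 1 := ⟨M - k - 1, by omega⟩
    have ih' := ih (by omega)
    have e1 : N + k + 1 - k = N + 1 := by omega
    have e2 : N + k + 1 - (k + 1) = N := by omega
    rw [e1, Ak_succ N] at ih'
    rw [e2, Ak_succ k]
    have hnM : (N : ℤ) + k + 1 + t = n := by have := h.nM; push_cast at this; exact this
    have hda := h.da
    -- rewrite the two factors
    have f1 : X q (-1 + d * N) = X q (-(d * (k + 1))) :=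
      h.X_eq (c := d - a) (by linear_combination -hda + d * hnM)
    have f2 : X q (d * (N + 1)) = X q (-(-1 + d * k)) :=
      h.X_eq (c := d - a) (by linear_combination -hda + d * hnM)
    have u1 := h.u1 (i := k) (by omega)
    have u2 := h.u2 (i := k) (by omega)
    have g1 := iv_mul q u1
    have g2 := iv_mul q u2
    rw [f1, one_sub_neg, iv_congr q f2, iv_neg q u1] at ih'
    have hx : X q ((1 + d) * ((k+1 : ℕ) : ℤ)) = X q ((1+d) * k) * X q (1 + d) := by
      rw [← X_add]
      have : ((1 + d) * ((k+1 : ℕ) : ℤ)) = (1+d) * k + (1 + d) := by push_cast; ring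
      rw [this]
    have hα : X q (-(d * (k+1))) * X q (-1 + d * k) = X q (-(1+d)) := by
      rw [← X_add]; congr 1; ring
    have hβ : X q (-(1+d)) * X q (1+d) = 1 := X_neg_mul q _
    calc Ak q d N = Ak q d N * (X q (-(1+d)) * X q (1+d))
          * ((1 - X q (-1 + d * k)) * iv q (-1 + d * k))
          * ((1 - X q (d * (k + 1))) * iv q (d * (k + 1))) := by rw [hβ, g1, g2]; ring
      _ = X q (1+d) * (Ak q d N * ((-X q (-(d * (k + 1))) * (1 - X q (d * (k + 1))))
          * (-X q (-1 + d * k) * iv q (-1 + d * k))))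
          * ((1 - X q (-1 + d * k)) * iv q (d * (k + 1))) := by rw [← hα]; ring
      _ = _ := by rw [ih', hx]; ring

/-- the reversal of the weight -/
theorem Res.wk_rev (h : Res q d n M t a) (m : ℕ) (hm : d = 2 * m + 1) (k : ℕ) (hk : k ≤ M) :
    wk q m d (M - k) = - X q (m + 1) * X q (-((1 + d) * d * k)) * wk q m d k := by
  unfold wk
  have hkM : ((M - k : ℕ) : ℤ) = M - k := by push_cast [hk]; ring
  have hda := h.da
  have hnM := h.nM
  have hm' : (d : ℤ) = 2 * m + 1 := by exact_mod_cast hm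
  have f1 : X q (m * d * ((M - k : ℕ) : ℤ)) = X q (m - m * d * k) :=
    h.X_eq (c := m * d - m * a) (by rw [hkM]; linear_combination (-m) * hda + m * d * hnM)
  have f2 : X q (2 * d * ((M - k : ℕ) : ℤ) - 1) = X q (-(2 * d * k - 1)) :=
    h.X_eq (c := 2 * d - 2 * a) (by rw [hkM]; linear_combination (-2) * hda + 2 * d * hnM)
  rw [f1, f2]
  have e1 := one_sub_neg q (2 * d * k - 1)
  have e2 : X q (m - m * d * k) * X q (-(2 * d * k - 1))
      = X q (m + 1) * X q (-((1 + d) * d * k)) * X q (m * d * k) := by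
    rw [← X_add, ← X_add, ← X_add]
    congr 1
    rw [hm']; ring
  linear_combination (-X q (m - m * d * k)) * e1 + (1 - X q (2 * d * k - 1)) * e2

/-- `W_k = w_k A_k^d` -/
noncomputable def Wk (q : Aˣ) (m d k : ℕ) : A := wk q m d k * Ak q d k ^ d

theorem Res.Wk_rev (h : Res q d n M t a) (m : ℕ) (hm : d = 2 * m + 1) (k : ℕ) (hk : k ≤ M) :
    Wk q m d (M - k) = (- X q (m + 1) * Ak q d M ^ d) * Wk q m d k := by
  unfold Wk
  rw [h.wk_rev m hm k hk, h.Ak_rev k hk, mul_pow, mul_pow]
  have e1 : X q ((1 + d) * k) ^ d = X q ((1 + d) * d * k) := by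
    rw [← X_natmul]; congr 1; ring
  have e2 := X_neg_mul q ((1+d) * d * k)
  rw [e1]
  linear_combination (-X q (m + 1) * Ak q d M ^ d * wk q m d k * Ak q d k ^ d) * e2

theorem sum_odd (b : ℕ) : ∑ i ∈ range (2 * b + 1), ((i : ℤ) + 1) = (2 * b + 1) * (b + 1) := by
  induction b with
  | zero => simp
  | succ b ih =>
    rw [show 2 * (b + 1) + 1 = (2 * b + 1) + 1 + 1 by ring, sum_range_succ, sum_range_succ, ih]
    push_cast; ring

theorem sum_even (b : ℕ) : ∑ i ∈ range (2 * b), ((i : ℤ) + 1) = b * (2 * b + 1) := by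
  induction b with
  | zero => simp
  | succ b ih =>
    rw [show 2 * (b + 1) = (2 * b) + 1 + 1 by ring, sum_range_succ, sum_range_succ, ih]
    push_cast; ring

theorem prod_neg_flip (f : ℕ → ℤ) (N : ℕ) :
    ∏ i ∈ range N, (1 - X q (-(f i))) = (-1)^N * X q (-∑ i ∈ range N, f i) * ∏ i ∈ range N, (1 - X q (f i)) := by
  have : ∀ i ∈ range N, (1 - X q (-(f i))) = (-1) * X q (-(f i)) * (1 - X q (f i)) := by
    intro i _
    rw [one_sub_neg]; ring
  rw [prod_congr rfl this, prod_mul_distrib, prod_mul_distrib, prod_const, card_range, prod_X,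
    sum_neg_distrib]

/-- value of `A_M` by reflecting the numerator -/
theorem Res.AkM (h : Res q d n M t a) :
    Ak q d M = (-1)^M * X q (-∑ i ∈ range M, d * ((i : ℤ) + 1)) := by
  unfold Ak
  rw [prod_mul_distrib, ← prod_range_reflect]
  have e : ∀ i ∈ range M, (1 - X q (-1 + d * ((M - 1 - i : ℕ) : ℤ))) = 1 - X q (-(d * ((i : ℤ) + 1))) := by
    intro i hi
    rw [mem_range] at hi
    congr 1
    have : ((M - 1 - i : ℕ) : ℤ) = M - 1 - i := by omega
    rw [this]
    exact h.X_eq (c := d - a) (by linear_combination - h.da + d * h.nM)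
  rw [prod_congr rfl e, prod_neg_flip, mul_assoc, ← prod_mul_distrib]
  have e2 : ∀ i ∈ range M, (1 - X q (d * ((i : ℤ) + 1))) * iv q (d * ((i : ℤ) + 1)) = 1 := by
    intro i hi
    exact iv_mul q (h.u2 (mem_range.mp hi))
  rw [prod_congr rfl e2]
  simp

/-- the polynomial `P(Q^k)` with `s = t - 1` factors -/
noncomputable def Pk (q : Aˣ) (d s k : ℕ) : A := ∏ l ∈ range s, (1 - X q (d * ((l : ℤ) + 1 + k)))

theorem Res.Pk_eq (h : Res q d n M t a) (s : ℕ) (hs : t = s + 1) (k : ℕ) (hk : k ≤ M) :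
    Pk q d s k = Pk q d s 0 * Ak q d k := by
  have h1 := prod_shift (fun i : ℕ => (1 - X q (d * (i : ℤ)))) s k
  have e1 : Pk q d s k = ∏ l ∈ range s, (1 - X q (d * ((l + 1 + k : ℕ) : ℤ))) := by
    unfold Pk; push_cast; rfl
  have e2 : Pk q d s 0 = ∏ l ∈ range s, (1 - X q (d * ((l + 1 : ℕ) : ℤ))) := by
    unfold Pk; push_cast; simp
  rw [e1, e2]
  unfold Ak
  rw [prod_mul_distrib]
  have e3 : ∏ i ∈ range k, (1 - X q (-1 + d * (i : ℤ))) = ∏ i ∈ range k, (1 - X q (d * ((s + 1 + i : ℕ) : ℤ))) := by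
    apply prod_congr rfl
    intro i _
    rw [h.Xm1, hs]; push_cast; rfl
  rw [e3]
  have e4 : (∏ i ∈ range k, (1 - X q (d * ((i + 1 : ℕ) : ℤ)))) * ∏ i ∈ range k, iv q (d * ((i : ℤ) + 1)) = 1 := by
    rw [← prod_mul_distrib]
    apply prod_eq_one
    intro i hi
    have := iv_mul q (h.u2 (i := i) (by have := mem_range.mp hi; omega))
    push_cast
    exact this
  calc _ = (∏ l ∈ range s, (1 - X q (d * ((l + 1 + k : ℕ) : ℤ)))) *
      ((∏ i ∈ range k, (1 - X q (d * ((i + 1 : ℕ) : ℤ)))) * ∏ i ∈ range k, iv q (d * ((i : ℤ) + 1))) := by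
        rw [e4, mul_one]
    _ = _ := by rw [← mul_assoc, h1]; ring

theorem Res.Pk0_unit (h : Res q d n M t a) (s : ℕ) (hs : t = s + 1) : IsUnit (Pk q d s 0) := by
  unfold Pk
  rw [IsUnit.prod_iff]
  intro l hl
  apply h.hu
  apply h.hd
  · positivity
  · have := h.hMt
    have := mem_range.mp hl
    have h2 : l + 1 < n := by omega
    have : (l : ℤ) + 1 < n := by exact_mod_cast h2
    simpa using this

/-- case (b): `A_M = q^r` -/
theorem Res.AkM_b (h : Res q d n M t 2) (r : ℕ) (hr : t = 2 * r + 1) : Ak q d M = X q r := by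
  have h1 := h.Pk_eq (2*r) hr M le_rfl
  have h2 := h.Pk0_unit (2*r) hr
  have h3 : Pk q d (2*r) M = X q r * Pk q d (2*r) 0 := by
    unfold Pk
    rw [← prod_range_reflect]
    have e : ∀ l ∈ range (2*r), (1 - X q (d * (((2*r - 1 - l : ℕ) : ℤ) + 1 + (M : ℤ))))
        = 1 - X q (-(d * ((l : ℤ) + 1))) := by
      intro l hl
      rw [mem_range] at hl
      congr 1
      have : ((2*r - 1 - l : ℕ) : ℤ) = 2 * r - 1 - l := by omega
      rw [this]
      have hr' : (t : ℤ) = 2 * r + 1 := by exact_mod_cast hr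
      exact h.X_eq (c := d) (by linear_combination d * h.nM - d * hr')
    rw [prod_congr rfl e, prod_neg_flip, ← mul_sum, sum_even]
    have e3 : X q (-(d * ((r : ℤ) * (2 * r + 1)))) = X q r := by
      have hda := h.da
      rw [hr] at hda
      push_cast at hda
      exact h.X_eq (c := -2 * r) (by linear_combination (-r) * hda)
    rw [e3]
    simp
  rw [h3] at h1
  have h4 : Pk q d (2*r) 0 * Ak q d M = Pk q d (2*r) 0 * X q r := by rw [← h1]; ring
  exact (h2.mul_right_inj).mp h4

theorem Res.kappa_b (h : Res q d n M t 2) (m r : ℕ) (hm : d = 2 * m + 1) (hr : t = 2 * r + 1) :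
    - X q (m + 1) * Ak q d M ^ d = -1 := by
  rw [h.AkM_b r hr, ← X_natmul, neg_mul, ← X_add]
  have hda := h.da
  have e : X q ((m : ℤ) + 1 + r * d) = 1 := by
    have : (m : ℤ) + 1 + r * d = 0 + n * 1 := by
      have h1 : (2 : ℤ) * (m + 1 + r * d) = 2 * n := by
        subst hm hr
        push_cast at hda ⊢
        linear_combination hda
      linarith
    rw [this, h.per]; simp
  rw [e]

theorem Res.kappa_a (h : Res q d n M t 1) (m : ℕ) (hm : d = 2 * m + 1) (hM : M = 2 * m * t + 1) :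
    - X q (m + 1) * Ak q d M ^ d = 1 := by
  have hA : Ak q d M = - X q (-(1 + m * t)) := by
    rw [h.AkM, ← mul_sum, hM, show 2 * m * t + 1 = 2 * (m * t) + 1 by ring, sum_odd]
    rw [pow_succ, pow_mul]
    simp only [even_two, Even.neg_pow, one_pow, one_mul, neg_mul, neg_inj]
    have hda := h.da
    have hnM := h.nM
    rw [hM] at hnM
    push_cast at hnM hda ⊢
    exact h.X_eq (c := -(d - 1) * (m * t + 1)) (by linear_combination ((m * t + 1)) * hda + (-d * (m * t+1)) * hnM)
  rw [hA, hm, neg_pow, ← X_natmul]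
  have e1 : ((-1 : A))^(2 * m + 1) = -1 := by rw [pow_succ, pow_mul]; simp
  rw [e1]
  have e2 : X q ((m : ℤ) + 1) * X q (-(1 + (m : ℤ) * t) * ((2 * m + 1 : ℕ) : ℤ)) = 1 := by
    rw [← X_add]
    have hda := h.da
    subst hm
    have : (m : ℤ) + 1 + -(1 + (m : ℤ) * t) * ((2 * m + 1 : ℕ) : ℤ) = 0 + n * (-m) := by
      push_cast at hda ⊢
      linear_combination (-m) * hda
    rw [this, h.per]; simp
  linear_combination e2

/-- even reversal -/
theorem Res.HJ_rev (h : Res q d n M t a) (f : ℤ → A) (ε : A)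
    (hf : ∀ e e' : ℤ, X q e = X q e' → f e = f e')
    (hneg : ∀ e : ℤ, IsUnit (1 - X q e) → f (-e) = ε * f e)
    (k : ℕ) (hk : k ≤ M) :
    Hs f d (M - k) + ε * Js f d k = ε * Js f d M := by
  unfold Hs Js
  have e1 : ∀ i ∈ range (M - k), f (-1 + d * (i : ℤ)) = ε * f (d * ((M - 1 - i : ℕ) + 1)) := by
    intro i hi
    have hi := mem_range.mp hi
    have : ((M - 1 - i : ℕ) : ℤ) = M - 1 - i := by omega
    have hu : IsUnit (1 - X q (d * (((M - 1 - i : ℕ) : ℤ) + 1))) := h.u2 (by omega)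
    rw [← hneg _ hu]
    apply hf
    rw [this, h.Xm2]
    congr 1; ring
  rw [sum_congr rfl e1, ← mul_sum, ← mul_add]
  congr 1
  have e2 := sum_range_reflect (fun i => f (d * ((i : ℤ) + 1))) M
  rw [← e2]
  have hsplit : M = (M - k) + k := by omega
  conv_rhs => rw [hsplit, sum_range_add]
  rw [← hsplit]
  congr 1
  rw [← sum_range_reflect (fun i => f (d * ((i : ℤ) + 1))) k]
  apply sum_congr rfl
  intro i hi
  have hi := mem_range.mp hi
  have : k - 1 - i = M - 1 - (M - k + i) := by omega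
  simp only [this]

theorem sum_rev (M : ℕ) (f : ℕ → A) : ∑ k ∈ range (M+1), f k = ∑ k ∈ range (M+1), f (M - k) := by
  rw [← sum_range_reflect]
  apply sum_congr rfl
  intro i _
  congr 1

/-- case (a) conclusion in the residue ring -/
theorem Res.final_a (h : Res q d n M t 1) (m : ℕ) (hm : d = 2 * m + 1) (hM : M = 2 * m * t + 1)
    (h2 : IsUnit (2 : A)) (hW : ∑ k ∈ range (M+1), Wk q m d k = 0)
    (hHJ : ∑ k ∈ range (M+1), Wk q m d k * (Hs (hh q) d k - Js (hh q) d k) = 0) :
    ∑ k ∈ range (M+1), Wk q m d k * Hs (hh q) d k = 0 ∧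
      ∑ k ∈ range (M+1), Wk q m d k * Js (hh q) d k = 0 := by
  have hrev : ∑ k ∈ range (M+1), Wk q m d k * Hs (hh q) d k
      = - ∑ k ∈ range (M+1), Wk q m d k * Js (hh q) d k := by
    rw [sum_rev]
    have : ∀ k ∈ range (M+1), Wk q m d (M - k) * Hs (hh q) d (M - k)
        = Js (hh q) d M * Wk q m d k - Wk q m d k * Js (hh q) d k := by
      intro k hk
      have hk : k ≤ M := by simpa [Nat.lt_succ_iff] using hk
      rw [h.Wk_rev m hm k hk, h.kappa_a m hm hM]
      have := h.HJ_rev (hh q) 1 (fun e e' => hh_congr q) (fun e he => by rw [hh_neg q he, one_mul]) k hk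
      linear_combination Wk q m d k * this
    rw [sum_congr rfl this, sum_sub_distrib, ← mul_sum, hW]
    ring
  have hd : ∑ k ∈ range (M+1), Wk q m d k * Hs (hh q) d k
      = ∑ k ∈ range (M+1), Wk q m d k * Js (hh q) d k := by
    have : ∑ k ∈ range (M+1), Wk q m d k * (Hs (hh q) d k - Js (hh q) d k)
      = ∑ k ∈ range (M+1), Wk q m d k * Hs (hh q) d k - ∑ k ∈ range (M+1), Wk q m d k * Js (hh q) d k := by
      rw [← sum_sub_distrib]
      apply sum_congr rfl
      intro k _
      ring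
    rw [this] at hHJ
    exact sub_eq_zero.mp hHJ
  have h3 : (2 : A) * ∑ k ∈ range (M+1), Wk q m d k * Js (hh q) d k = 0 := by
    rw [hd] at hrev
    linear_combination hrev
  have h4 := (h2.mul_right_eq_zero).mp h3
  exact ⟨by rw [hd, h4], h4⟩

/-- case (b) conclusion in the residue ring -/
theorem Res.final_b (h : Res q d n M t 2) (m r : ℕ) (hm : d = 2 * m + 1) (hr : t = 2 * r + 1)
    (h2 : IsUnit (2 : A)) :
    ∑ k ∈ range (M+1), Wk q m d k * (Hs (tt q) d k + Js (tt q) d k) = 0 := by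
  have hf : ∀ e e' : ℤ, X q e = X q e' → tt q e = tt q e' := fun e e' => tt_congr q
  have hneg : ∀ e : ℤ, IsUnit (1 - X q e) → tt q (-e) = (-1) * tt q e := fun e he => by
    rw [tt_neg q he]; ring
  have hrev : ∑ k ∈ range (M+1), Wk q m d k * (Hs (tt q) d k + Js (tt q) d k)
      = - ∑ k ∈ range (M+1), Wk q m d k * (Hs (tt q) d k + Js (tt q) d k) := by
    conv_lhs => rw [sum_rev]
    rw [← sum_neg_distrib]
    apply sum_congr rfl
    intro k hk
    have hk : k ≤ M := by simpa [Nat.lt_succ_iff] using hk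
    rw [h.Wk_rev m hm k hk, h.kappa_b m r hm hr]
    have e1 := h.HJ_rev (tt q) (-1) hf hneg k hk
    have e2 := h.HJ_rev (tt q) (-1) hf hneg (M - k) (by omega)
    have e3 : M - (M - k) = k := by omega
    rw [e3] at e2
    linear_combination (-Wk q m d k) * e1 + (Wk q m d k) * e2
  have h3 : (2 : A) * ∑ k ∈ range (M+1), Wk q m d k * (Hs (tt q) d k + Js (tt q) d k) = 0 := by
    linear_combination hrev
  exact (h2.mul_right_eq_zero).mp h3

end

end Pool.Agent.D0H46.DC
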