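import Mathlib
import Pool.Agent.D0H46.DC.ExactSum
import Pool.Agent.D0H46.DC.Rev

namespace Pool.Agent.D0H46.DC

open Finset

section gd
variable {A : Type*} [CommRing A]

/-- `x = 1 + a` up to `U^2`, with `U` dividing `a` -/
def Gd (U x a : A) : Prop := U ∣ a ∧ U^2 ∣ x - (1 + a)

theorem Gd.mul {U x y a b : A} (h1 : Gd U x a) (h2 : Gd U y b) : Gd U (x * y) (a + b) := by
  obtain ⟨⟨a', rfl⟩, ⟨c, hc⟩⟩ := h1
  obtain ⟨⟨b', rfl⟩, ⟨e, he⟩⟩ := h2
  refine ⟨⟨a' + b', by ring⟩, ⟨c * y + (1 + U * a') * e + a' * b', ?_⟩⟩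
  linear_combination y * hc + (1 + U * a') * he

theorem Gd.one {U : A} : Gd U 1 0 := ⟨dvd_zero _, by simp⟩

theorem Gd.prod {U : A} {ι : Type*} (s : Finset ι) (x a : ι → A) (h : ∀ i ∈ s, Gd U (x i) (a i)) :
    Gd U (∏ i ∈ s, x i) (∑ i ∈ s, a i) := by
  classical
  induction s using Finset.induction_on with
  | empty => simpa using Gd.one
  | insert i s hi ih =>
    rw [prod_insert hi, sum_insert hi]
    exact (h i (mem_insert_self _ _)).mul (ih (fun j hj => h j (mem_insert_of_mem hj)))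

theorem Gd.self {U a : A} (h : U ∣ a) : Gd U (1 + a) a := ⟨h, by simp⟩

theorem Gd.inv {U a g : A} (h : U ∣ a) (hg : g * (1 - a) = 1) : Gd U g a := by
  refine ⟨h, ?_⟩
  obtain ⟨b, rfl⟩ := h
  refine ⟨b^2 * g, ?_⟩
  linear_combination (1 + U * b) * hg

theorem Gd.sub_one {U x a : A} (h : Gd U x a) : U ∣ x - 1 := by
  obtain ⟨⟨a', rfl⟩, ⟨c, hc⟩⟩ := h
  exact ⟨a' + U * c, by linear_combination hc⟩

end gd

section
variable {O : Type*} [CommRing O] (q : Oˣ)

/-- `u = q^n - 1` -/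
noncomputable def uu (n : ℕ) : O := X q n - 1

noncomputable def om (n : ℕ) (c : ℤ) : O := X q (n * c) + X q (-(n * c)) - 2

theorem u_dvd (n : ℕ) (c : ℤ) : uu q n ∣ X q (n * c) - 1 := by
  have hnat : ∀ k : ℕ, uu q n ∣ X q (n * (k : ℤ)) - 1 := by
    intro k
    rw [X_natmul]
    exact sub_one_dvd_pow_sub_one _ k
  obtain ⟨k, rfl | rfl⟩ := c.eq_nat_or_neg
  · exact hnat k
  · obtain ⟨w, hw⟩ := hnat k
    refine ⟨-X q (n * (-(k:ℤ))) * w, ?_⟩
    have e := X_neg_mul q (n * (k : ℤ))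
    rw [mul_neg]
    linear_combination (-X q (-(n * (k : ℤ)))) * hw + e

theorem om_eq (n : ℕ) (c : ℤ) : om q n c = X q (-(n * c)) * (X q (n * c) - 1)^2 := by
  unfold om
  have e := X_neg_mul q (n * c)
  linear_combination (2 - X q (n * c)) * e

theorem u2_dvd_om (n : ℕ) (c : ℤ) : (uu q n)^2 ∣ om q n c := by
  rw [om_eq]
  exact Dvd.dvd.mul_left (pow_dvd_pow_of_dvd (u_dvd q n c) 2) _

theorem pair_eq (n : ℕ) (e c : ℤ) (h : IsUnit (1 - X q e)) :
    (1 - X q (e + n * c)) * (1 - X q (e - n * c)) = (1 - X q e)^2 * (1 - hh q e * om q n c) := by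
  have h1 := iv_mul q h
  have e1 := X_neg_mul q (n * c)
  unfold hh om
  rw [X_add, X_sub]
  have h2 : (1 - X q e)^2 * iv q e ^ 2 = 1 := by rw [← mul_pow, h1, one_pow]
  linear_combination (X q e)^2 * e1 + X q e * (X q (n * c) + X q (-(n * c)) - 2) * h2

theorem GG_eq (n : ℕ) (e c : ℤ) (h : IsUnit (1 - X q e)) (h1 : IsUnit (1 - X q (e + n * c)))
    (h2 : IsUnit (1 - X q (e - n * c))) : GG q n e c * (1 - hh q e * om q n c) = 1 := by
  have g := iv_mul q h
  have g1 := iv_mul q h1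
  have g2 := iv_mul q h2
  have p := pair_eq q n e c h
  unfold GG
  calc (1 - X q e)^2 * (iv q (e + n * c) * iv q (e - n * c)) * (1 - hh q e * om q n c)
      = ((1 - X q e)^2 * (1 - hh q e * om q n c)) * (iv q (e + n * c) * iv q (e - n * c)) := by ring
    _ = ((1 - X q (e + n * c)) * iv q (e + n * c)) * ((1 - X q (e - n * c)) * iv q (e - n * c)) := by
        rw [← p]; ring
    _ = 1 := by rw [g1, g2, one_mul]

variable {q} {d n M t a : ℕ}

theorem Ar.unit_m1 (h : Ar d n M t a) (H : Hyp q n) {i : ℕ} (hi : i < M) (c : ℤ) :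
    IsUnit (1 - X q (-1 + d * i + n * c)) := by
  apply H.hu
  have hda : (d : ℤ) * t + 1 = a * n := by exact_mod_cast h.hda
  have e : (-1 + d * i + n * c : ℤ) = d * (t + i) + n * (c - a) := by linear_combination -hda
  rw [e]
  apply h.nd
  · have := h.ht; positivity
  · have := h.hMt
    have : t + i < n := by omega
    exact_mod_cast this

/-- factorization of the exact term -/
theorem Ar.Tk_eq (h : Ar d n M t a) (H : Hyp q n) (m : ℕ) (hm : d = 2 * m + 1) (c1 : ℕ → ℤ) (k : ℕ) (hk : k ≤ M) :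
    Tk q m d n c1 k = Wk q m d k * ∏ j ∈ range m, ∏ i ∈ range k,
      ((1 + -(hh q (-1 + d * i) * om q n (c1 j))) * GG q n (d * (i + 1)) (2 * j + 1)) := by
  have hA : Nm q d n 0 k * Dn q d n 0 k = Ak q d k := by
    unfold Nm Dn Ak
    rw [← prod_mul_distrib]
    simp
  have hp : ∀ j ∈ range m, ((Nm q d n (c1 j) k * Nm q d n (-(c1 j)) k) *
      (Dn q d n (2 * j + 1) k * Dn q d n (-(2 * j + 1)) k))
      = Ak q d k ^ 2 * ∏ i ∈ range k,
      ((1 + -(hh q (-1 + d * i) * om q n (c1 j))) * GG q n (d * (i + 1)) (2 * j + 1)) := by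
    intro j _
    unfold Nm Dn Ak
    rw [← prod_mul_distrib, ← prod_mul_distrib, ← prod_mul_distrib, ← prod_pow, ← prod_mul_distrib]
    apply prod_congr rfl
    intro i hi
    have hi := mem_range.mp hi
    have u1 := h.unit_m1 H (i := i) (by omega) 0
    rw [mul_zero, add_zero] at u1
    have u2 := h.uD H hk 0 i hi
    rw [mul_zero, add_zero] at u2
    have p := pair_eq q n (-1 + d * i) (c1 j) u1
    have g2 := iv_mul q u2
    have e1 : (-1 + (d : ℤ) * i + n * -(c1 j)) = (-1 + d * i - n * (c1 j)) := by ring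
    have e2 : ((d : ℤ) * (i + 1) + n * -(2 * j + 1)) = (d * (i + 1) - n * (2 * j + 1)) := by ring
    rw [e1, e2]
    unfold GG
    have g3 : (1 - X q (d * ((i : ℤ) + 1)))^2 * iv q (d * ((i : ℤ) + 1))^2 = 1 := by
      rw [← mul_pow, g2, one_pow]
    linear_combination (iv q (↑d * (↑i + 1) + ↑n * (2 * ↑j + 1)) * iv q (↑d * (↑i + 1) - ↑n * (2 * ↑j + 1))) * p
      - ((1 - X q (-1 + ↑d * ↑i)) ^ 2 * (1 - hh q (-1 + ↑d * ↑i) * om q n (c1 j))
        * (iv q (↑d * (↑i + 1) + ↑n * (2 * ↑j + 1)) * iv q (↑d * (↑i + 1) - ↑n * (2 * ↑j + 1)))) * g3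
  unfold Tk Wk
  rw [hA, prod_congr rfl hp, prod_mul_distrib, prod_const, card_range]
  have : Ak q d k ^ d = Ak q d k * (Ak q d k ^ 2)^m := by
    rw [hm, ← pow_mul]; ring
  rw [this]
  ring

theorem Ar.GG_gd (h : Ar d n M t a) (H : Hyp q n) {j : ℤ} (h0 : 0 < j) (h1 : j < n) (b c : ℤ) :
    Gd ((uu q n)^2) (GG q n (d * j + n * b) c) (hh q (d * j + n * b) * om q n c) := by
  apply Gd.inv
  · exact Dvd.dvd.mul_left (u2_dvd_om q n c) _
  · apply GG_eq
    · exact H.hu _ (h.nd h0 h1)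
    · have := H.hu _ (h.nd (c := b + c) h0 h1)
      rwa [mul_add, ← add_assoc] at this
    · have := H.hu _ (h.nd (c := b - c) h0 h1)
      rwa [mul_sub, ← add_sub_assoc] at this

/-- sum over `j` of the `om`'s -/
noncomputable def Om (q : Oˣ) (n m : ℕ) (c : ℕ → ℤ) : O := ∑ j ∈ range m, om q n (c j)

theorem Om_dvd (m : ℕ) (c : ℕ → ℤ) : (uu q n)^2 ∣ Om q n m c :=
  dvd_sum (fun j _ => u2_dvd_om q n (c j))

theorem Ar.Tk_gd (h : Ar d n M t a) (H : Hyp q n) (m : ℕ) (c1 : ℕ → ℤ) (k : ℕ) (hk : k ≤ M) :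
    Gd ((uu q n)^2) (∏ j ∈ range m, ∏ i ∈ range k,
      ((1 + -(hh q (-1 + d * i) * om q n (c1 j))) * GG q n (d * (i + 1)) (2 * j + 1)))
      (-(Om q n m c1 * Hs (hh q) d k) + Om q n m (fun j => 2 * (j : ℤ) + 1) * Js (hh q) d k) := by
  have e : (-(Om q n m c1 * Hs (hh q) d k) + Om q n m (fun j => 2 * (j : ℤ) + 1) * Js (hh q) d k)
      = ∑ j ∈ range m, ∑ i ∈ range k, (-(hh q (-1 + d * i) * om q n (c1 j))
        + hh q (d * (i + 1)) * om q n (2 * j + 1)) := by
    unfold Om Hs Js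
    simp only [sum_add_distrib]
    congr 1
    · rw [sum_mul_sum, ← sum_neg_distrib]
      apply sum_congr rfl
      intro j _
      rw [← sum_neg_distrib]
      apply sum_congr rfl
      intro i _
      ring
    · rw [sum_mul_sum]
      apply sum_congr rfl
      intro j _
      apply sum_congr rfl
      intro i _
      ring
  rw [e]
  apply Gd.prod
  intro j _
  apply Gd.prod
  intro i hi
  have hi := mem_range.mp hi
  apply Gd.mul
  · apply Gd.self
    rw [dvd_neg]
    exact Dvd.dvd.mul_left (u2_dvd_om q n _) _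
  · have := h.GG_gd H (j := (i : ℤ) + 1) (by positivity) (by
      have := h.hMt
      have := h.ht
      have : i + 1 < n := by omega
      exact_mod_cast this) 0 (2 * j + 1)
    rw [mul_zero, add_zero] at this
    exact this

/-- `u^4` divides the expansion of the exact identity -/
theorem Ar.S1 (h : Ar d n M t a) (H : Hyp q n) (m : ℕ) (hm : d = 2 * m + 1) (c1 : ℕ → ℤ)
    (hT : ∑ k ∈ range (M+1), Tk q m d n c1 k = 0) :
    (uu q n)^4 ∣ ∑ k ∈ range (M+1), Wk q m d k - Om q n m c1 * ∑ k ∈ range (M+1), Wk q m d k * Hs (hh q) d k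
      + Om q n m (fun j => 2 * (j : ℤ) + 1) * ∑ k ∈ range (M+1), Wk q m d k * Js (hh q) d k := by
  have e : ∑ k ∈ range (M+1), Wk q m d k - Om q n m c1 * ∑ k ∈ range (M+1), Wk q m d k * Hs (hh q) d k
      + Om q n m (fun j => 2 * (j : ℤ) + 1) * ∑ k ∈ range (M+1), Wk q m d k * Js (hh q) d k
      = -∑ k ∈ range (M+1), (Tk q m d n c1 k - Wk q m d k * (1 +
        (-(Om q n m c1 * Hs (hh q) d k) + Om q n m (fun j => 2 * (j : ℤ) + 1) * Js (hh q) d k))) := by
    rw [sum_sub_distrib, hT, zero_sub, neg_neg, mul_sum, mul_sum, ← sum_sub_distrib, ← sum_add_distrib]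
    apply sum_congr rfl
    intro k _
    ring
  rw [e, dvd_neg]
  apply dvd_sum
  intro k hk
  have hk : k ≤ M := by simpa [Nat.lt_succ_iff] using hk
  rw [h.Tk_eq H m hm c1 k hk, ← mul_sub]
  have := (h.Tk_gd H m c1 k hk).2
  rw [← pow_mul] at this
  exact Dvd.dvd.mul_left this _

theorem Ar.TW (h : Ar d n M t a) (H : Hyp q n) (m : ℕ) (hm : d = 2 * m + 1) (c1 : ℕ → ℤ) (k : ℕ) (hk : k ≤ M) :
    (uu q n)^2 ∣ Tk q m d n c1 k - Wk q m d k := by
  rw [h.Tk_eq H m hm c1 k hk]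
  have := (h.Tk_gd H m c1 k hk).sub_one
  obtain ⟨w, hw⟩ := this
  exact ⟨Wk q m d k * w, by linear_combination Wk q m d k * hw⟩

/-- `u^2 ∣ Σ W_k` -/
theorem Ar.W2 (h : Ar d n M t a) (H : Hyp q n) (m : ℕ) (hm : d = 2 * m + 1) (c1 : ℕ → ℤ)
    (hT : ∑ k ∈ range (M+1), Tk q m d n c1 k = 0) :
    (uu q n)^2 ∣ ∑ k ∈ range (M+1), Wk q m d k := by
  have e : ∑ k ∈ range (M+1), Wk q m d k = - ∑ k ∈ range (M+1), (Tk q m d n c1 k - Wk q m d k) := by
    rw [sum_sub_distrib, hT]; ring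
  rw [e, dvd_neg]
  apply dvd_sum
  intro k hk
  exact h.TW H m hm c1 k (by simpa [Nat.lt_succ_iff] using hk)

/-- the shifted sums -/
noncomputable def rho (q : Oˣ) (d n t : ℕ) (b : ℤ) (k : ℕ) : O :=
  ∑ l ∈ range (t-1), hh q (d * (l + 1 + k) + n * b)

/-- `u^2 ∣ (stuff) Σ W_k ρ_k` -/
theorem Ar.S2 [IsDomain O] (h : Ar d n M t a) (H : Hyp q n) (m : ℕ) (hm : d = 2 * m + 1) (c1 : ℕ → ℤ)
    (hT : ∑ k ∈ range (M+1), Tk q m d n c1 k = 0) (b c : ℤ)
    (hT' : ∑ k ∈ range (M+1), Tk q m d n c1 k * ∏ l ∈ range (t-1), GG q n (d * (l + 1 + k) + n * b) c = 0)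
    (w : O) (hw : om q n c = (uu q n)^2 * w) (hu0 : uu q n ≠ 0) :
    (uu q n)^2 ∣ w * ∑ k ∈ range (M+1), Wk q m d k * rho q d n t b k := by
  have hg : ∀ k ∈ range (M+1), Gd ((uu q n)^2) (∏ l ∈ range (t-1), GG q n (d * (l + 1 + k) + n * b) c)
      (om q n c * rho q d n t b k) := by
    intro k hk
    have hk : k ≤ M := by simpa [Nat.lt_succ_iff] using hk
    unfold rho
    rw [mul_sum]
    apply Gd.prod
    intro l hl
    have hl := mem_range.mp hl
    rw [mul_comm (om q n c)]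
    apply h.GG_gd H
    · positivity
    · have := h.hMt
      have : l + 1 + k < n := by omega
      exact_mod_cast this
  have h4 : (uu q n)^4 ∣ om q n c * ∑ k ∈ range (M+1), Tk q m d n c1 k * rho q d n t b k := by
    have e : om q n c * ∑ k ∈ range (M+1), Tk q m d n c1 k * rho q d n t b k
        = -∑ k ∈ range (M+1), (Tk q m d n c1 k * ((∏ l ∈ range (t-1), GG q n (d * (l + 1 + k) + n * b) c)
          - (1 + om q n c * rho q d n t b k))) := by
      have e1 : ∀ k ∈ range (M+1), (Tk q m d n c1 k * ((∏ l ∈ range (t-1), GG q n (d * (l + 1 + k) + n * b) c)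
          - (1 + om q n c * rho q d n t b k)))
          = Tk q m d n c1 k * (∏ l ∈ range (t-1), GG q n (d * (l + 1 + k) + n * b) c)
          - Tk q m d n c1 k - om q n c * (Tk q m d n c1 k * rho q d n t b k) := by
        intro k _; ring
      rw [sum_congr rfl e1, sum_sub_distrib, sum_sub_distrib, hT, hT', ← mul_sum]
      ring
    rw [e, dvd_neg]
    apply dvd_sum
    intro k hk
    have := (hg k hk).2
    rw [← pow_mul] at this
    exact Dvd.dvd.mul_left this _
  have h2 : (uu q n)^2 ∣ w * ∑ k ∈ range (M+1), Tk q m d n c1 k * rho q d n t b k := by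
    rw [hw, mul_assoc, show (uu q n)^4 = (uu q n)^2 * (uu q n)^2 by ring] at h4
    exact (mul_dvd_mul_iff_left (pow_ne_zero 2 hu0)).mp h4
  have e : w * ∑ k ∈ range (M+1), Wk q m d k * rho q d n t b k
      = w * ∑ k ∈ range (M+1), Tk q m d n c1 k * rho q d n t b k
        - w * ∑ k ∈ range (M+1), (Tk q m d n c1 k - Wk q m d k) * rho q d n t b k := by
    rw [← mul_sub, ← sum_sub_distrib]
    congr 1
    apply sum_congr rfl
    intro k _
    ring
  rw [e]
  apply dvd_sub h2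
  apply Dvd.dvd.mul_left
  apply dvd_sum
  intro k hk
  exact Dvd.dvd.mul_right (h.TW H m hm c1 k (by simpa [Nat.lt_succ_iff] using hk)) _

theorem Ar.rho_shift (h : Ar d n M t a) (b : ℤ) (k : ℕ) :
    rho q d n t b k - rho q d n t b 0 = ∑ i ∈ range k, hh q (-1 + d * i + n * (a + b))
      - ∑ i ∈ range k, hh q (d * (i + 1) + n * b) := by
  have := sum_shift (fun i : ℕ => hh q (d * (i : ℤ) + n * b)) (t-1) k
  have ht := h.ht
  have e1 : t - 1 + 1 = t := by omega
  rw [e1] at this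
  unfold rho
  have e2 : ∑ l ∈ range (t-1), hh q (d * ((l : ℤ) + 1 + k) + n * b) = ∑ l ∈ range (t-1), hh q (d * ((l + 1 + k : ℕ) : ℤ) + n * b) := by
    push_cast; rfl
  have e3 : ∑ l ∈ range (t-1), hh q (d * ((l : ℤ) + 1 + (0 : ℕ)) + n * b) = ∑ l ∈ range (t-1), hh q (d * ((l + 1 : ℕ) : ℤ) + n * b) := by
    push_cast; simp
  have e4 : ∑ i ∈ range k, hh q (-1 + d * (i : ℤ) + n * (a + b)) = ∑ i ∈ range k, hh q (d * ((t + i : ℕ) : ℤ) + n * b) := by
    apply sum_congr rfl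
    intro i _
    have hda : (d : ℤ) * t + 1 = a * n := by exact_mod_cast h.hda
    congr 1
    push_cast
    linear_combination -hda
  have e5 : ∑ i ∈ range k, hh q (d * ((i : ℤ) + 1) + n * b) = ∑ i ∈ range k, hh q (d * ((i + 1 : ℕ) : ℤ) + n * b) := by
    push_cast; rfl
  rw [e2, e3, e4, e5]
  linear_combination this

/-- first-order variation of `hh` upward -/
theorem hh_up (n : ℕ) (e : ℤ) (h : IsUnit (1 - X q e)) (h' : IsUnit (1 - X q (e + n))) :
    (uu q n)^2 ∣ hh q (e + n) - (hh q e + uu q n * tt q e) := by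
  have g := iv_mul q h
  have g' := iv_mul q h'
  have ex : X q (e + n) = X q e + uu q n * X q e := by
    rw [X_add]; unfold uu; ring
  rw [ex] at g'
  unfold hh tt
  rw [ex]
  generalize uu q n = u at *
  generalize X q e = x at *
  generalize iv q e = y at *
  generalize iv q (e + n) = y' at *
  have e1 : y' = y + u * x * y * y' := by linear_combination y * g' - y' * g
  have e2 : y' = y + u * x * y^2 + u^2 * (x^2 * y^2 * y') := by
    linear_combination e1 + u * x * y * e1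
  -- x(1+u) y'^2
  have e3 : ∃ z, y'^2 = y^2 + 2 * u * x * y^3 + u^2 * z := by
    refine ⟨(x * y^2)^2 + 2 * (y + u * x * y^2) * (x^2 * y^2 * y') + u^2 * (x^2 * y^2 * y')^2, ?_⟩
    calc y'^2 = (y + u * x * y^2 + u^2 * (x^2 * y^2 * y'))^2 := by rw [← e2]
      _ = _ := by ring
  obtain ⟨z, hz⟩ := e3
  refine ⟨(x + u * x) * z + 2 * x^2 * y^3, ?_⟩
  rw [hz]
  linear_combination (-u * x * y^2) * g

theorem hh_down (n : ℕ) (e : ℤ) (h : IsUnit (1 - X q e)) (h' : IsUnit (1 - X q (e - n))) :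
    (uu q n)^2 ∣ hh q (e - n) - (hh q e - uu q n * tt q e) := by
  have g := iv_mul q h
  have g' := iv_mul q h'
  have ex : X q e = X q (e - n) + uu q n * X q (e - n) := by
    have : X q e = X q ((e - n) + n) := by congr 1; ring
    rw [this, X_add]; unfold uu; ring
  unfold hh tt
  generalize uu q n = u at *
  generalize X q e = x at *
  generalize X q (e - n) = x' at *
  generalize iv q e = y at *
  generalize iv q (e - n) = y' at *
  have ex' : x' = x - u * x + u^2 * x' := by linear_combination (u - 1) * ex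
  have e1 : y' = y - u * x' * y * y' := by linear_combination y * g' - y' * g - y * y' * ex
  have e2 : y' = y - u * x * y^2 + u^2 * (y * (x' * y + x'^2 * y * y')) := by
    linear_combination e1 + (u * y^2) * ex - (u * x' * y) * e1
  have e3 : ∃ z, y'^2 = y^2 - 2 * u * x * y^3 + u^2 * z := by
    refine ⟨(x * y^2)^2 + 2 * (y - u * x * y^2) * (y * (x' * y + x'^2 * y * y'))
      + u^2 * (y * (x' * y + x'^2 * y * y'))^2, ?_⟩
    calc y'^2 = (y - u * x * y^2 + u^2 * (y * (x' * y + x'^2 * y * y')))^2 := by rw [← e2]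
      _ = _ := by ring
  obtain ⟨z, hz⟩ := e3
  refine ⟨x' * y'^2 + (x - u * x) * z + 2 * x^2 * y^3, ?_⟩
  have e4 : x' * y'^2 = (x - u * x) * y'^2 + u^2 * (x' * y'^2) := by
    linear_combination y'^2 * ex'
  linear_combination e4 + (x - u * x) * hz + (u * x * y^2) * g

/-- the tail is divisible by `u^d` -/
theorem Ar.tail (h : Ar d n M t a) (m : ℕ) (k : ℕ) (hk : M < k) : (uu q n)^d ∣ Wk q m d k := by
  unfold Wk
  apply Dvd.dvd.mul_left
  apply pow_dvd_pow_of_dvd
  unfold Ak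
  apply dvd_trans _ (dvd_prod_of_mem _ (mem_range.mpr hk))
  apply Dvd.dvd.mul_right
  have hda : (d : ℤ) * t + 1 = a * n := by exact_mod_cast h.hda
  have hMt : (M : ℤ) + t = n := by exact_mod_cast h.hMt
  have e : (-1 + d * M : ℤ) = n * (d - a) := by linear_combination d * hMt - hda
  rw [e, ← dvd_neg, neg_sub]
  exact u_dvd q n _

theorem Ar.total (h : Ar d n M t a) (m e : ℕ) (he : e ≤ d) (hS : (uu q n)^e ∣ ∑ k ∈ range (M+1), Wk q m d k) :
    (uu q n)^e ∣ ∑ k ∈ range n, Wk q m d k := by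
  have hn : n = (M + 1) + (t - 1) := by have := h.hMt; have := h.ht; omega
  have : ∑ k ∈ range n, Wk q m d k = ∑ k ∈ range ((M + 1) + (t - 1)), Wk q m d k := by rw [← hn]
  rw [this, sum_range_add]
  apply dvd_add hS
  apply dvd_sum
  intro k _
  exact (pow_dvd_pow _ he).trans (h.tail m _ (by omega))

end
end Pool.Agent.D0H46.DC
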