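import Mathlib
import Pool.Agent.D0H46.DC.Cong

namespace Pool.Agent.D0H46.DC

open Finset

section
variable {O : Type*} [CommRing O] {q : Oˣ} {R : Type*} [CommRing R] (π : O →+* R)
variable {d n M t a : ℕ}

theorem map_X (e : ℤ) : π (X q e) = X (Units.map (π : O →* R) q) e := by
  unfold X
  rw [← map_zpow]
  rfl

theorem map_iv {e : ℤ} (h : IsUnit (1 - X q e)) : π (iv q e) = iv (Units.map (π : O →* R) q) e := by
  have h1 := congrArg π (iv_mul q h)
  have hu : IsUnit (1 - X (Units.map (π : O →* R) q) e) := by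
    have := h.map π
    rwa [map_sub, map_one, map_X] at this
  have h2 := iv_mul _ hu
  rw [map_mul, map_sub, map_one, map_X] at h1
  exact (hu.mul_right_inj).mp (h1.trans h2.symm)

theorem map_hh {e : ℤ} (h : IsUnit (1 - X q e)) : π (hh q e) = hh (Units.map (π : O →* R) q) e := by
  unfold hh
  rw [map_mul, map_pow, map_X, map_iv π h]

theorem map_tt {e : ℤ} (h : IsUnit (1 - X q e)) : π (tt q e) = tt (Units.map (π : O →* R) q) e := by
  unfold tt
  rw [map_mul, map_mul, map_add, map_one, map_pow, map_X, map_iv π h]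

theorem Ar.unit_f (h : Ar d n M t a) (H : Hyp q n) {i : ℕ} (hi : i < M) :
    IsUnit (1 - X q (d * ((i : ℤ) + 1))) := by
  have := h.uD H (k := i + 1) (by omega) 0 i (by omega)
  rwa [mul_zero, add_zero] at this

theorem Ar.unit_e (h : Ar d n M t a) (H : Hyp q n) {i : ℕ} (hi : i < M) :
    IsUnit (1 - X q (-1 + d * (i : ℤ))) := by
  have := h.unit_m1 H hi 0
  rwa [mul_zero, add_zero] at this

theorem Ar.map_Wk (h : Ar d n M t a) (H : Hyp q n) (m k : ℕ) (hk : k ≤ M) :
    π (Wk q m d k) = Wk (Units.map (π : O →* R) q) m d k := by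
  unfold Wk wk Ak
  rw [map_mul, map_mul, map_sub, map_pow, map_prod, map_one, map_X, map_X]
  congr 2
  apply prod_congr rfl
  intro i hi
  have hi := mem_range.mp hi
  rw [map_mul, map_sub, map_one, map_X, map_iv π (h.unit_f H (by omega))]

theorem Ar.map_Hs_hh (h : Ar d n M t a) (H : Hyp q n) (k : ℕ) (hk : k ≤ M) :
    π (Hs (hh q) d k) = Hs (hh (Units.map (π : O →* R) q)) d k := by
  unfold Hs
  rw [map_sum]
  apply sum_congr rfl
  intro i hi
  have hi := mem_range.mp hi
  rw [map_hh π (h.unit_e H (by omega))]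

theorem Ar.map_Js_hh (h : Ar d n M t a) (H : Hyp q n) (k : ℕ) (hk : k ≤ M) :
    π (Js (hh q) d k) = Js (hh (Units.map (π : O →* R) q)) d k := by
  unfold Js
  rw [map_sum]
  apply sum_congr rfl
  intro i hi
  have hi := mem_range.mp hi
  rw [map_hh π (h.unit_f H (by omega))]

theorem Ar.map_Hs_tt (h : Ar d n M t a) (H : Hyp q n) (k : ℕ) (hk : k ≤ M) :
    π (Hs (tt q) d k) = Hs (tt (Units.map (π : O →* R) q)) d k := by
  unfold Hs
  rw [map_sum]
  apply sum_congr rfl
  intro i hi
  have hi := mem_range.mp hi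
  rw [map_tt π (h.unit_e H (by omega))]

theorem Ar.map_Js_tt (h : Ar d n M t a) (H : Hyp q n) (k : ℕ) (hk : k ≤ M) :
    π (Js (tt q) d k) = Js (tt (Units.map (π : O →* R) q)) d k := by
  unfold Js
  rw [map_sum]
  apply sum_congr rfl
  intro i hi
  have hi := mem_range.mp hi
  rw [map_tt π (h.unit_f H (by omega))]

theorem Ar.toRes (h : Ar d n M t a) (H : Hyp q n) (hπ : π (uu q n) = 0) :
    Res (Units.map (π : O →* R) q) d n M t a where
  hn := by
    unfold uu at hπ
    rw [map_sub, map_one, map_X] at hπ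
    exact sub_eq_zero.mp hπ
  hu := by
    intro e he
    have := (H.hu e he).map π
    rwa [map_sub, map_one, map_X] at this
  hd := h.hd
  hMt := h.hMt
  ht := h.ht
  hda := h.hda

/-- case (a) over the local domain -/
theorem mainA [IsDomain O] (h : Ar d n M t 1) (H : Hyp q n) (h2 : IsUnit (2 : O)) (hu0 : uu q n ≠ 0)
    (m : ℕ) (hm : d = 2 * m + 1) (h1 : 1 ≤ m) (hM : M = 2 * m * t + 1) :
    (uu q n)^3 ∣ ∑ k ∈ range n, Wk q m d k := by
  apply h.total m 3 (by omega)
  obtain ⟨hT, hT'⟩ := sumT_a h H m hm h1 hM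
  have hS1 := h.S1 H m hm _ hT
  have hW2 := h.W2 H m hm _ hT
  have hom : om q n 1 = (uu q n)^2 * X q (-(n * 1)) := by
    rw [om_eq]
    unfold uu
    rw [mul_one]; ring
  have hT'' : ∑ k ∈ range (M+1), Tk q m d n (fun j => 2 * (j : ℤ) + 2) k *
      ∏ l ∈ range (t-1), GG q n (d * (l + 1 + k) + n * 0) 1 = 0 := by
    simpa using hT'
  have hS2 := h.S2 H m hm _ hT 0 1 hT'' _ hom hu0
  have hunit : IsUnit (X q (-(n * 1))) := (q^(-(n * 1 : ℤ))).isUnit
  have hS2' : (uu q n)^2 ∣ ∑ k ∈ range (M+1), Wk q m d k * rho q d n t 0 k :=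
    (hunit.dvd_mul_left).mp hS2
  -- pass to the quotient
  set I := Ideal.span {uu q n} with hI
  set π := Ideal.Quotient.mk I with hπ
  have hπ0 : π (uu q n) = 0 := by
    rw [hπ, Ideal.Quotient.eq_zero_iff_mem]
    exact Ideal.mem_span_singleton_self _
  have hπi : ∀ x : O, π x = 0 ↔ uu q n ∣ x := by
    intro x
    rw [hπ, Ideal.Quotient.eq_zero_iff_mem, hI, Ideal.mem_span_singleton]
  have hres := h.toRes π H hπ0
  have h2' : IsUnit (2 : O ⧸ I) := by
    have := h2.map π
    rwa [map_ofNat] at this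
  have hk' : ∀ k ∈ range (M+1), k ≤ M := fun k hk => by simpa [Nat.lt_succ_iff] using hk
  have hW : ∑ k ∈ range (M+1), Wk (Units.map (π : O →* (O ⧸ I)) q) m d k = 0 := by
    have : π (∑ k ∈ range (M+1), Wk q m d k) = 0 := (hπi _).mpr ((dvd_pow_self _ two_ne_zero).trans hW2)
    rw [map_sum] at this
    rw [← this]
    apply sum_congr rfl
    intro k hk
    rw [h.map_Wk π H m k (hk' k hk)]
  have hHJ : ∑ k ∈ range (M+1), Wk (Units.map (π : O →* (O ⧸ I)) q) m d k *
      (Hs (hh (Units.map (π : O →* (O ⧸ I)) q)) d k - Js (hh (Units.map (π : O →* (O ⧸ I)) q)) d k) = 0 := by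
    have e1 : π (∑ k ∈ range (M+1), Wk q m d k * (rho q d n t 0 k - rho q d n t 0 0)) = 0 := by
      rw [hπi]
      have : ∑ k ∈ range (M+1), Wk q m d k * (rho q d n t 0 k - rho q d n t 0 0)
          = ∑ k ∈ range (M+1), Wk q m d k * rho q d n t 0 k - (∑ k ∈ range (M+1), Wk q m d k) * rho q d n t 0 0 := by
        rw [sum_mul, ← sum_sub_distrib]
        apply sum_congr rfl
        intro k _
        ring
      rw [this]
      exact (dvd_pow_self _ two_ne_zero).trans (dvd_sub hS2' (Dvd.dvd.mul_right hW2 _))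
    rw [map_sum] at e1
    rw [← e1]
    apply sum_congr rfl
    intro k hk
    have hk := hk' k hk
    rw [map_mul, h.map_Wk π H m k hk, h.rho_shift, map_sub]
    congr 1
    congr 1
    · unfold Hs
      rw [map_sum]
      apply sum_congr rfl
      intro i hi
      have hi := mem_range.mp hi
      rw [map_hh π (h.unit_m1 H (by omega) _)]
      exact (hh_congr _ (hres.per _ _)).symm
    · unfold Js
      rw [map_sum]
      apply sum_congr rfl
      intro i hi
      have hi := mem_range.mp hi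
      rw [mul_zero, add_zero, map_hh π (h.unit_f H (by omega))]
  obtain ⟨f1, f2⟩ := hres.final_a m hm hM h2' hW hHJ
  have g1 : uu q n ∣ ∑ k ∈ range (M+1), Wk q m d k * Hs (hh q) d k := by
    rw [← hπi, map_sum, ← f1]
    apply sum_congr rfl
    intro k hk
    rw [map_mul, h.map_Wk π H m k (hk' k hk), h.map_Hs_hh π H k (hk' k hk)]
  have g2 : uu q n ∣ ∑ k ∈ range (M+1), Wk q m d k * Js (hh q) d k := by
    rw [← hπi, map_sum, ← f2]
    apply sum_congr rfl
    intro k hk
    rw [map_mul, h.map_Wk π H m k (hk' k hk), h.map_Js_hh π H k (hk' k hk)]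
  have g3 : (uu q n)^3 ∣ Om q n m (fun j => 2 * (j : ℤ) + 2) * ∑ k ∈ range (M+1), Wk q m d k * Hs (hh q) d k := by
    rw [show (uu q n)^3 = (uu q n)^2 * uu q n by ring]
    exact mul_dvd_mul (Om_dvd m _) g1
  have g4 : (uu q n)^3 ∣ Om q n m (fun j => 2 * (j : ℤ) + 1) * ∑ k ∈ range (M+1), Wk q m d k * Js (hh q) d k := by
    rw [show (uu q n)^3 = (uu q n)^2 * uu q n by ring]
    exact mul_dvd_mul (Om_dvd m _) g2
  have g5 := (pow_dvd_pow (uu q n) (show 3 ≤ 4 by norm_num)).trans hS1
  have g6 := dvd_sub (dvd_add g5 g3) g4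
  convert g6 using 1
  ring

/-- case (b) over the local domain -/
theorem mainB [IsDomain O] (h : Ar d n M t 2) (H : Hyp q n) (h2 : IsUnit (2 : O)) (hu0 : uu q n ≠ 0)
    (m r : ℕ) (hm : d = 2 * m + 1) (h1 : 2 ≤ m) (hr : t = 2 * r + 1) :
    (uu q n)^4 ∣ ∑ k ∈ range n, Wk q m d k := by
  apply h.total m 4 (by omega)
  obtain ⟨hT, hT'⟩ := sumT_b h H m r hm h1 hr
  have hS1 := h.S1 H m hm _ hT
  have hW2 := h.W2 H m hm _ hT
  have hom : om q n 2 = (uu q n)^2 * (X q (-(n * 2)) * (uu q n + 2)^2) := by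
    rw [om_eq]
    have : X q (n * 2) = X q n * X q n := by rw [← X_add]; congr 1; ring
    rw [this]
    unfold uu
    ring
  have hS2 := h.S2 H m hm _ hT (-1) 2 hT' _ hom hu0
  have hS2' : (uu q n)^2 ∣ ∑ k ∈ range (M+1), Wk q m d k * rho q d n t (-1) k := by
    have hunit : IsUnit (X q (-(n * 2))) := (q^(-(n * 2 : ℤ))).isUnit
    rw [mul_assoc] at hS2
    have h3 := (hunit.dvd_mul_left).mp hS2
    generalize ∑ k ∈ range (M+1), Wk q m d k * rho q d n t (-1) k = Y at *
    have h16 : IsUnit (16 : O) := by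
      have := h2.pow 4
      norm_num at this
      exact this
    have h4 : (uu q n)^2 ∣ 16 * Y := by
      have : 16 * Y = (uu q n - 2)^2 * ((uu q n + 2)^2 * Y) + (uu q n)^2 * (8 * Y - (uu q n)^2 * Y) := by ring
      rw [this]
      exact dvd_add (Dvd.dvd.mul_left h3 _) (Dvd.intro _ rfl)
    exact (h16.dvd_mul_left).mp h4
  set I := Ideal.span {uu q n} with hI
  set π := Ideal.Quotient.mk I with hπ
  have hπ0 : π (uu q n) = 0 := by
    rw [hπ, Ideal.Quotient.eq_zero_iff_mem]
    exact Ideal.mem_span_singleton_self _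
  have hπi : ∀ x : O, π x = 0 ↔ uu q n ∣ x := by
    intro x
    rw [hπ, Ideal.Quotient.eq_zero_iff_mem, hI, Ideal.mem_span_singleton]
  have hres := h.toRes π H hπ0
  have h2' : IsUnit (2 : O ⧸ I) := by
    have := h2.map π
    rwa [map_ofNat] at this
  have hk' : ∀ k ∈ range (M+1), k ≤ M := fun k hk => by simpa [Nat.lt_succ_iff] using hk
  have f1 := hres.final_b m r hm hr h2'
  have g1 : uu q n ∣ ∑ k ∈ range (M+1), Wk q m d k * (Hs (tt q) d k + Js (tt q) d k) := by
    rw [← hπi, map_sum, ← f1]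
    apply sum_congr rfl
    intro k hk
    rw [map_mul, h.map_Wk π H m k (hk' k hk), map_add, h.map_Hs_tt π H k (hk' k hk), h.map_Js_tt π H k (hk' k hk)]
  -- relation between rho and Hs - Js
  have hrho : ∀ k ∈ range (M+1), (uu q n)^2 ∣ (rho q d n t (-1) k - rho q d n t (-1) 0)
      - ((Hs (hh q) d k - Js (hh q) d k) + uu q n * (Hs (tt q) d k + Js (tt q) d k)) := by
    intro k hk
    have hk := hk' k hk
    rw [h.rho_shift]
    have e : (∑ i ∈ range k, hh q (-1 + d * i + n * ((2 : ℕ) + -1)) - ∑ i ∈ range k, hh q (d * (i + 1) + n * -1))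
      - ((Hs (hh q) d k - Js (hh q) d k) + uu q n * (Hs (tt q) d k + Js (tt q) d k))
      = ∑ i ∈ range k, (hh q ((-1 + d * i) + n) - (hh q (-1 + d * i) + uu q n * tt q (-1 + d * i)))
        - ∑ i ∈ range k, (hh q (d * (i + 1) - n) - (hh q (d * (i + 1)) - uu q n * tt q (d * (i + 1)))) := by
      unfold Hs Js
      rw [sum_sub_distrib, sum_sub_distrib, sum_sub_distrib, sum_add_distrib, ← mul_sum, ← mul_sum]
      have e1 : ∑ i ∈ range k, hh q (-1 + d * (i : ℤ) + n * ((2 : ℕ) + -1)) = ∑ i ∈ range k, hh q ((-1 + d * i) + n) := by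
        apply sum_congr rfl; intro i _; congr 1; push_cast; ring
      have e2 : ∑ i ∈ range k, hh q (d * ((i : ℤ) + 1) + n * -1) = ∑ i ∈ range k, hh q (d * (i + 1) - n) := by
        apply sum_congr rfl; intro i _; congr 1; ring
      rw [e1, e2]
      ring
    rw [e]
    apply dvd_sub
    · apply dvd_sum
      intro i hi
      have hi := mem_range.mp hi
      apply hh_up
      · exact h.unit_e H (by omega)
      · have := h.unit_m1 H (i := i) (by omega) 1
        rwa [mul_one] at this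
    · apply dvd_sum
      intro i hi
      have hi := mem_range.mp hi
      apply hh_down
      · exact h.unit_f H (by omega)
      · have := h.uD H hk (-1) i hi
        have e3 : (d : ℤ) * (i + 1) + n * -1 = d * (i + 1) - n := by ring
        rwa [e3] at this
  have hK : (uu q n)^2 ∣ ∑ k ∈ range (M+1), Wk q m d k * (Hs (hh q) d k - Js (hh q) d k) := by
    have e : ∑ k ∈ range (M+1), Wk q m d k * (Hs (hh q) d k - Js (hh q) d k)
        = ∑ k ∈ range (M+1), Wk q m d k * rho q d n t (-1) k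
          - (∑ k ∈ range (M+1), Wk q m d k) * rho q d n t (-1) 0
          - uu q n * ∑ k ∈ range (M+1), Wk q m d k * (Hs (tt q) d k + Js (tt q) d k)
          - ∑ k ∈ range (M+1), Wk q m d k * ((rho q d n t (-1) k - rho q d n t (-1) 0)
      - ((Hs (hh q) d k - Js (hh q) d k) + uu q n * (Hs (tt q) d k + Js (tt q) d k))) := by
      rw [sum_mul, mul_sum, ← sum_sub_distrib, ← sum_sub_distrib, ← sum_sub_distrib]
      apply sum_congr rfl
      intro k _
      ring
    rw [e]
    apply dvd_sub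
    · apply dvd_sub
      · exact dvd_sub hS2' (Dvd.dvd.mul_right hW2 _)
      · rw [pow_two]
        exact mul_dvd_mul_left _ g1
    · apply dvd_sum
      intro k hk
      exact Dvd.dvd.mul_left (hrho k hk) _
  have g3 : (uu q n)^4 ∣ Om q n m (fun j => 2 * (j : ℤ) + 1) * ∑ k ∈ range (M+1), Wk q m d k * (Hs (hh q) d k - Js (hh q) d k) := by
    rw [show (uu q n)^4 = (uu q n)^2 * (uu q n)^2 by ring]
    exact mul_dvd_mul (Om_dvd m _) hK
  have g6 := dvd_add hS1 g3
  convert g6 using 1
  have e : ∑ k ∈ range (M+1), Wk q m d k * (Hs (hh q) d k - Js (hh q) d k)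
    = ∑ k ∈ range (M+1), Wk q m d k * Hs (hh q) d k - ∑ k ∈ range (M+1), Wk q m d k * Js (hh q) d k := by
    rw [← sum_sub_distrib]
    apply sum_congr rfl
    intro k _
    ring
  rw [e]
  ring

end
end Pool.Agent.D0H46.DC
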