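import Mathlib
import Pool.Agent.D0H46.DC.Fin

namespace Pool.Agent.D0H46.DC

open Finset Polynomial

/-- embedding `ℤ[q] → ℚ(q)` -/
noncomputable def io : ℤ[X] →+* RatFunc ℚ :=
  (algebraMap ℚ[X] (RatFunc ℚ)).comp (Polynomial.mapRingHom (Int.castRingHom ℚ))

theorem io_inj : Function.Injective io := by
  unfold io
  rw [RingHom.coe_comp]
  apply Function.Injective.comp
  · exact IsFractionRing.injective ℚ[X] (RatFunc ℚ)
  · exact Polynomial.map_injective _ Int.cast_injective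

theorem io_X : io Polynomial.X = RatFunc.X := by
  simp [io]

theorem io_ne {B : ℤ[X]} (h : B ≠ 0) : io B ≠ 0 := by
  intro hh
  apply h
  apply io_inj
  rw [hh, map_zero]

/-- local subring at the prime `p` -/
def Loc (p : ℤ[X]) (hp : Prime p) : Subring (RatFunc ℚ) where
  carrier := {x | ∃ A B : ℤ[X], ¬ p ∣ B ∧ x * io B = io A}
  mul_mem' := by
    rintro x y ⟨A, B, hB, hx⟩ ⟨A', B', hB', hy⟩
    refine ⟨A * A', B * B', fun h => (hp.dvd_or_dvd h).elim hB hB', ?_⟩
    rw [map_mul, map_mul, ← hx, ← hy]; ring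
  add_mem' := by
    rintro x y ⟨A, B, hB, hx⟩ ⟨A', B', hB', hy⟩
    refine ⟨A * B' + A' * B, B * B', fun h => (hp.dvd_or_dvd h).elim hB hB', ?_⟩
    rw [map_mul, map_add, map_mul, map_mul, ← hx, ← hy]; ring
  zero_mem' := ⟨0, 1, fun h => hp.not_isUnit (isUnit_of_dvd_one h), by simp⟩
  one_mem' := ⟨1, 1, fun h => hp.not_isUnit (isUnit_of_dvd_one h), by simp⟩
  neg_mem' := by
    rintro x ⟨A, B, hB, hx⟩
    refine ⟨-A, B, hB, ?_⟩
    rw [map_neg, ← hx]; ring

theorem mem_Loc_io (p : ℤ[X]) (hp : Prime p) (A : ℤ[X]) : io A ∈ Loc p hp :=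
  ⟨A, 1, fun h => hp.not_isUnit (isUnit_of_dvd_one h), by simp⟩

theorem mem_Loc_inv (p : ℤ[X]) (hp : Prime p) (B : ℤ[X]) (hB : ¬ p ∣ B) : (io B)⁻¹ ∈ Loc p hp := by
  refine ⟨1, B, hB, ?_⟩
  rw [map_one]
  apply inv_mul_cancel₀
  apply io_ne
  rintro rfl
  exact hB (dvd_zero _)

/-- `io B` as a unit of `Loc` -/
noncomputable def locUnit (p : ℤ[X]) (hp : Prime p) (B : ℤ[X]) (hB : ¬ p ∣ B) : (Loc p hp)ˣ where
  val := ⟨io B, mem_Loc_io p hp B⟩
  inv := ⟨(io B)⁻¹, mem_Loc_inv p hp B hB⟩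
  val_inv := by
    ext
    simp only [Subring.coe_mul, Subring.coe_one]
    apply mul_inv_cancel₀
    apply io_ne
    rintro rfl
    exact hB (dvd_zero _)
  inv_val := by
    ext
    simp only [Subring.coe_mul, Subring.coe_one]
    apply inv_mul_cancel₀
    apply io_ne
    rintro rfl
    exact hB (dvd_zero _)

theorem cyc_prime (n : ℕ) (hn : 0 < n) : Prime (cyclotomic n ℤ) :=
  (cyclotomic.irreducible hn).prime

theorem cyc_not_dvd_X (n : ℕ) (hn : 0 < n) : ¬ cyclotomic n ℤ ∣ Polynomial.X := by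
  intro h
  have h1 : cyclotomic n ℤ ∣ (Polynomial.X : ℤ[X])^n := dvd_pow h hn.ne'
  have h2 : cyclotomic n ℤ ∣ (Polynomial.X : ℤ[X])^n - 1 := cyclotomic.dvd_X_pow_sub_one n ℤ
  have h3 : cyclotomic n ℤ ∣ 1 := by
    have := dvd_sub h1 h2
    rwa [sub_sub_cancel] at this
  exact (cyc_prime n hn).not_isUnit (isUnit_of_dvd_one h3)

theorem cyc_dvd_pow (n : ℕ) (hn : 0 < n) (k : ℕ) (h : cyclotomic n ℤ ∣ 1 - (Polynomial.X : ℤ[X])^k) : n ∣ k := by
  have hz := Complex.isPrimitiveRoot_exp n hn.ne'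
  have hroot : (cyclotomic n ℂ).eval (Complex.exp (2 * Real.pi * Complex.I / n)) = 0 := by
    have : NeZero n := ⟨hn.ne'⟩
    have : NeZero (n : ℂ) := by infer_instance
    exact (isRoot_cyclotomic_iff (n := n) (R := ℂ) (μ := Complex.exp (2 * Real.pi * Complex.I / n))).mpr hz
  obtain ⟨c, hc⟩ := h
  have h1 := congrArg (fun P : ℤ[X] => (P.map (Int.castRingHom ℂ)).eval (Complex.exp (2 * Real.pi * Complex.I / n))) hc
  simp only [Polynomial.map_sub, Polynomial.map_one, Polynomial.map_pow, Polynomial.map_X, Polynomial.map_mul,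
    map_cyclotomic, eval_sub, eval_one, eval_pow, eval_X, eval_mul, hroot, zero_mul] at h1
  exact (hz.pow_eq_one_iff_dvd k).mp (sub_eq_zero.mp h1).symm

theorem cyc_not_dvd_two (n : ℕ) (hn : 0 < n) : ¬ cyclotomic n ℤ ∣ (2 : ℤ[X]) := by
  intro h
  have hd := natDegree_cyclotomic n ℤ
  have h1 : (cyclotomic n ℤ).natDegree ≤ (2 : ℤ[X]).natDegree := natDegree_le_of_dvd h (by norm_num)
  have h2 : (2 : ℤ[X]).natDegree = 0 := by
    have : (2 : ℤ[X]) = C 2 := by simp
    rw [this, natDegree_C]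
  rw [h2, hd] at h1
  have := Nat.totient_pos.mpr hn
  omega

section
variable (n : ℕ) (hn : 0 < n)

/-- the indeterminate as a unit -/
noncomputable def qq : (Loc (cyclotomic n ℤ) (cyc_prime n hn))ˣ :=
  locUnit _ _ Polynomial.X (cyc_not_dvd_X n hn)

theorem coe_qq : (((qq n hn : (Loc (cyclotomic n ℤ) (cyc_prime n hn))ˣ) : Loc (cyclotomic n ℤ) (cyc_prime n hn)) : RatFunc ℚ)
    = RatFunc.X := by
  change io Polynomial.X = _
  exact io_X

theorem coe_X (e : ℤ) : ((X (qq n hn) e : Loc (cyclotomic n ℤ) (cyc_prime n hn)) : RatFunc ℚ) = RatFunc.X ^ e := by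
  have := phi_X (q := qq n hn) (Loc (cyclotomic n ℤ) (cyc_prime n hn)).subtype e
  simpa [coe_qq] using this

theorem ratX_pow_ne_one (e : ℤ) (he : e ≠ 0) : (RatFunc.X : RatFunc ℚ)^e ≠ 1 := by
  have hnat : ∀ k : ℕ, 0 < k → (RatFunc.X : RatFunc ℚ)^k ≠ 1 := by
    intro k hk h
    rw [← io_X, ← map_pow, ← map_one io] at h
    have := io_inj h
    have h2 := congrArg natDegree this
    rw [natDegree_X_pow, natDegree_one] at h2
    omega
  obtain ⟨k, rfl | rfl⟩ := e.eq_nat_or_neg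
  · rw [zpow_natCast]
    exact hnat k (by omega)
  · rw [zpow_neg, zpow_natCast]
    intro h
    rw [inv_eq_one] at h
    exact hnat k (by omega) h

theorem hyp_inst : Hyp (qq n hn) n where
  hne := by
    intro e he h
    have := congrArg (fun z : Loc (cyclotomic n ℤ) (cyc_prime n hn) => (z : RatFunc ℚ)) h
    simp only [coe_X] at this
    exact ratX_pow_ne_one e he (by simpa using this)
  hu := by
    have hnat : ∀ k : ℕ, ¬ n ∣ k → IsUnit (1 - X (qq n hn) (k : ℤ)) := by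
      intro k hk
      have hB : ¬ cyclotomic n ℤ ∣ 1 - (Polynomial.X : ℤ[X])^k := fun h => hk (cyc_dvd_pow n hn k h)
      have : 1 - X (qq n hn) (k : ℤ) = (locUnit _ (cyc_prime n hn) _ hB : Loc (cyclotomic n ℤ) (cyc_prime n hn)) := by
        ext
        change (1 : RatFunc ℚ) - ((X (qq n hn) (k : ℤ) : Loc (cyclotomic n ℤ) (cyc_prime n hn)) : RatFunc ℚ) = io _
        rw [coe_X, map_sub, map_pow, map_one, io_X]
        simp
      rw [this]
      exact Units.isUnit _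
    intro e he
    obtain ⟨k, rfl | rfl⟩ := e.eq_nat_or_neg
    · exact hnat k (by exact_mod_cast he)
    · rw [one_sub_neg]
      refine IsUnit.mul ?_ (hnat k ?_)
      · have : IsUnit (X (qq n hn) (-(k : ℤ))) := ((qq n hn)^(-(k : ℤ))).isUnit
        exact this.neg
      · intro h
        apply he
        rw [dvd_neg]
        exact_mod_cast h

theorem two_unit : IsUnit (2 : Loc (cyclotomic n ℤ) (cyc_prime n hn)) := by
  have : (2 : Loc (cyclotomic n ℤ) (cyc_prime n hn)) = (locUnit _ (cyc_prime n hn) 2 (cyc_not_dvd_two n hn) : Loc (cyclotomic n ℤ) (cyc_prime n hn)) := by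
    ext
    change _ = io 2
    rw [map_ofNat]
    rfl
  rw [this]
  exact Units.isUnit _

/-- extraction of the representation from divisibility by powers of `u` -/
theorem extract (e : ℕ) (z : Loc (cyclotomic n ℤ) (cyc_prime n hn)) (h : (uu (qq n hn) n)^e ∣ z) :
    ∃ A B : ℤ[X], ¬ cyclotomic n ℤ ∣ B ∧ (cyclotomic n ℤ)^e ∣ A ∧ (z : RatFunc ℚ) = io A / io B := by
  obtain ⟨w, rfl⟩ := h
  obtain ⟨A, B, hB, hw⟩ := w.2
  obtain ⟨c, hc⟩ := cyclotomic.dvd_X_pow_sub_one n ℤ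
  refine ⟨(cyclotomic n ℤ * c)^e * A, B, hB, ?_, ?_⟩
  · rw [mul_pow, mul_assoc]
    exact Dvd.intro _ rfl
  · have hB0 : io B ≠ 0 := by
      apply io_ne
      rintro rfl
      exact hB (dvd_zero _)
    rw [eq_div_iff hB0, Subring.coe_mul, mul_assoc, hw, ← hc, map_mul, map_pow]
    congr 2
    rw [Subring.coe_pow]
    congr 1
    unfold uu
    change ((X (qq n hn) (n : ℤ) : Loc (cyclotomic n ℤ) (cyc_prime n hn)) : RatFunc ℚ) - 1 = _
    rw [coe_X, map_sub, map_pow, io_X]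
    simp

end

end Pool.Agent.D0H46.DC
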